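import Pool.Agent.Lib.MP_92084f_co.Cells

set_option autoImplicit false

open MeasureTheory
open scoped ENNReal RealInnerProductSpace

namespace Pool.Agent.Lib.MP_92084f_co

/-- The volume of the unit ball. -/
noncomputable def V0 : ℝ := (volume (Metric.ball (0 : E) 1)).toReal

theorem ball_ne_top : volume (Metric.ball (0 : E) 1) ≠ ⊤ := measure_ball_lt_top.ne

theorem V0_pos : 0 < V0 :=
  ENNReal.toReal_pos (Metric.measure_ball_pos _ _ one_pos).ne' ball_ne_top

theorem vol_ballD : volume ballD = volume (Metric.ball (0 : E) 1) := by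
  have : ballD = Metric.closedBall (0 : E) 1 \ {0} := by
    ext z
    simp [ballD, and_comm]
  rw [this, measure_sdiff_null (measure_singleton _), Measure.addHaar_closedBall_eq_addHaar_ball]

theorem inter_ballD_ne_top (s : Set E) : volume (s ∩ ballD) ≠ ⊤ :=
  ne_top_of_le_ne_top ball_ne_top (vol_ballD ▸ measure_mono Set.inter_subset_right)

theorem mass_ne_top (N : ℕ) (c : Fin 8 → ℤ) : mass N c ≠ ⊤ := inter_ballD_ne_top _

theorem sum_mass (N : ℕ) (T : Finset (Fin 8 → ℤ)) :
    ∑ c ∈ T, (mass N c).toReal = (volume (cell N ⁻¹' ↑T ∩ ballD)).toReal := by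
  rw [← sum_fibre volume (cell N) ballD
    (fun a => measurable_cell N (measurableSet_singleton a)) T, ENNReal.toReal_sum]
  · rfl
  · exact fun c _ => mass_ne_top N c

theorem sum_mass_le (N : ℕ) (T : Finset (Fin 8 → ℤ)) : ∑ c ∈ T, (mass N c).toReal ≤ V0 := by
  rw [sum_mass, V0, ← vol_ballD]
  exact ENNReal.toReal_mono (vol_ballD ▸ ball_ne_top) (measure_mono Set.inter_subset_right)

theorem card_cells (N : ℕ) (hN : 3 ≤ N) : ((cells N).card : ℝ) ≤ 768 * N ^ 7 * V0 := by
  have hN0 : 0 < N := by omega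
  have hN' : (3 : ℝ) ≤ N := by exact_mod_cast hN
  have hN1 : (0 : ℝ) < N := by linarith
  set a : ℝ := 3 * (1 / N) with ha
  have ha0 : 0 ≤ a := by positivity
  have ha1 : a ≤ 1 := by rw [ha, mul_one_div, div_le_one hN1]; exact hN'
  let cube : E → Fin 8 → ℤ := fun z j => ⌊(N : ℝ) * z j⌋
  have hm : Measurable cube := measurable_pi_lambda _ fun j => Measurable.floor (by fun_prop)
  have hv : ∀ c : Fin 8 → ℤ, volume (cube ⁻¹' {c} ∩ Set.univ) = ENNReal.ofReal ((1 / N) ^ 8) := by
    intro c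
    have : cube ⁻¹' {c} ∩ Set.univ =
        {z : E | ∀ j, (c j : ℝ) / N ≤ z j ∧ z j < (c j : ℝ) / N + 1 / N} := by
      ext z
      simp only [Set.inter_univ, Set.mem_preimage, Set.mem_singleton_iff, funext_iff, cube,
        Set.mem_ofPred_eq, Int.floor_eq_iff]
      refine forall_congr' fun j => ?_
      rw [← add_div, div_le_iff₀ hN1, lt_div_iff₀ hN1, mul_comm (z j)]
    rw [this, vol_box (fun j => (c j : ℝ) / N) (fun j => (c j : ℝ) / N + 1 / N)]
    simp only [add_sub_cancel_left, Finset.prod_const, Finset.card_univ, Fintype.card_fin]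
    rw [ENNReal.ofReal_pow (by positivity)]
  have h1 := sum_fibre volume cube Set.univ (fun a => hm (measurableSet_singleton a)) (cells N)
  simp only [hv, Finset.sum_const, nsmul_eq_mul] at h1
  have h2 : cube ⁻¹' ↑(cells N) ∩ Set.univ ⊆
      Metric.closedBall (0 : E) (1 + a) \ Metric.ball 0 (1 - a) := by
    rintro z ⟨hz, -⟩
    have hc : cube z ∈ cells N := hz
    have h3 : ‖z - rep N (cube z)‖ ≤ a := by
      refine norm_le_of_coord _ _ (by positivity) fun j => ?_
      have b1 := coord_of_cell N (norm_rep N (cube z)) j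
      rw [cell_rep N hc] at b1
      have b2 : ((cube z j : ℤ) : ℝ) ≤ N * z j := Int.floor_le _
      have b3 : N * z j < ((cube z j : ℤ) : ℝ) + 1 := Int.lt_floor_add_one _
      rw [le_div_iff₀ hN1, PiLp.sub_apply, ← abs_of_pos hN1, ← abs_mul, abs_le]
      constructor <;> nlinarith [b1.1, b1.2]
    have h4 := abs_norm_sub_norm_le z (rep N (cube z))
    rw [norm_rep] at h4
    have h5 := abs_le.1 (h4.trans h3)
    simp only [Set.mem_sdiff, mem_closedBall_zero_iff, mem_ball_zero_iff, not_lt]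
    constructor <;> linarith [h5.1, h5.2]
  have h3 : volume (Metric.closedBall (0 : E) (1 + a) \ Metric.ball 0 (1 - a)) =
      ENNReal.ofReal ((1 + a) ^ 8 - (1 - a) ^ 8) * volume (Metric.ball (0 : E) 1) := by
    rw [measure_sdiff (Metric.ball_subset_closedBall.trans
        (Metric.closedBall_subset_closedBall (by linarith))) measurableSet_ball.nullMeasurableSet
        measure_ball_lt_top.ne, Measure.addHaar_closedBall _ _ (by linarith : 0 ≤ 1 + a),
      Measure.addHaar_ball _ _ (by linarith : 0 ≤ 1 - a), ENNReal.ofReal_sub _ (by positivity),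
      ENNReal.sub_mul (fun _ _ => ball_ne_top)]
    simp
  have h4 := ENNReal.toReal_mono (ENNReal.mul_ne_top ENNReal.ofReal_ne_top ball_ne_top)
    (h1.le.trans ((measure_mono h2).trans h3.le))
  have h5 : 0 ≤ (1 + a) ^ 8 - (1 - a) ^ 8 := by
    have : (1 - a) ^ 8 ≤ (1 + a) ^ 8 := by gcongr <;> linarith
    linarith
  rw [ENNReal.toReal_mul, ENNReal.toReal_mul, ENNReal.toReal_ofReal (by positivity),
    ENNReal.toReal_ofReal h5, ENNReal.toReal_natCast] at h4
  have h6 : (1 + a) ^ 8 - (1 - a) ^ 8 ≤ 256 * a := by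
    have e : (1 + a) ^ 8 - (1 - a) ^ 8 = a * (16 + 112 * a ^ 2 + 112 * a ^ 4 + 16 * a ^ 6) := by
      ring
    have p2 : a ^ 2 ≤ 1 := pow_le_one₀ ha0 ha1
    have p4 : a ^ 4 ≤ 1 := pow_le_one₀ ha0 ha1
    have p6 : a ^ 6 ≤ 1 := pow_le_one₀ ha0 ha1
    rw [e]
    nlinarith
  have h7 : ((cells N).card : ℝ) * (1 / N) ^ 8 ≤ 256 * a * V0 :=
    h4.trans (mul_le_mul_of_nonneg_right h6 V0_pos.le)
  have e2 : ((cells N).card : ℝ) = ((cells N).card : ℝ) * (1 / N) ^ 8 * N ^ 8 := by field_simp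
  rw [e2]
  calc _ ≤ 256 * a * V0 * N ^ 8 := by gcongr
    _ = 768 * N ^ 7 * V0 := by rw [ha]; field_simp; ring

theorem half_ball (t : ℝ) (ht : 0 < t) :
    V0 / 2 - 2187 * t ≤ (volume ({z : E | t ≤ z 0} ∩ ballD)).toReal := by
  have hm : MeasurableSet ({z : E | t ≤ z 0} ∩ ballD) :=
    (measurableSet_le (by fun_prop) (by fun_prop)).inter measurableSet_ballD
  have h1 := (LinearIsometryEquiv.neg ℝ (E := E)).measurePreserving.measure_preimage
    hm.nullMeasurableSet
  have h2 := vol_box (Fin.cons (-t) fun _ => -1) (Fin.cons t fun _ => 2)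
  have h3 : ballD ⊆ (({z : E | t ≤ z 0} ∩ ballD) ∪
      (LinearIsometryEquiv.neg ℝ (E := E)) ⁻¹' ({z : E | t ≤ z 0} ∩ ballD)) ∪
      {z : E | ∀ j, (Fin.cons (-t) fun _ => -1 : Fin 8 → ℝ) j ≤ z j ∧
        z j < (Fin.cons t fun _ => 2 : Fin 8 → ℝ) j} := by
    intro z hz
    by_cases a1 : t ≤ z 0
    · exact Or.inl (Or.inl ⟨a1, hz⟩)
    by_cases a2 : t ≤ -z 0
    · exact Or.inl (Or.inr ⟨by simpa using a2, by simpa [ballD] using hz⟩)
    refine Or.inr fun j => Fin.cases ?_ (fun j => ?_) j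
    · simp only [Fin.cons_zero]
      constructor <;> linarith
    · have := abs_le.1 ((abs_le_norm_E z j.succ).trans hz.2)
      simp only [Fin.cons_succ]
      constructor <;> linarith [this.1, this.2]
  have h4 := (measure_mono (μ := volume) h3).trans ((measure_union_le _ _).trans
    (add_le_add (measure_union_le _ _) le_rfl))
  rw [h1, h2, vol_ballD, Fin.prod_univ_succ] at h4
  simp only [Fin.cons_zero, Fin.cons_succ, Finset.prod_const, Finset.card_univ,
    Fintype.card_fin] at h4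
  have h5 := inter_ballD_ne_top {z : E | t ≤ z 0}
  have h6 := ENNReal.toReal_mono (by finiteness) h4
  rw [ENNReal.toReal_add (by finiteness) (by finiteness), ENNReal.toReal_add h5 h5,
    ENNReal.toReal_mul, ENNReal.toReal_pow, ENNReal.toReal_ofReal (by linarith),
    ENNReal.toReal_ofReal (by norm_num)] at h6
  have : V0 = (volume (Metric.ball (0 : E) 1)).toReal := rfl
  linarith

open Classical in
theorem good_mass (N : ℕ) (hN : 0 < N) (ε : ℝ) (hε : 0 < ε) :
    V0 / 2 - 2187 * (ε + 3 * (1 / N)) ≤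
      ∑ c ∈ (cells N).filter fun c => ε ≤ rep N c 0, (mass N c).toReal := by
  rw [sum_mass]
  refine (half_ball _ (by positivity)).trans
    (ENNReal.toReal_mono (inter_ballD_ne_top _) (measure_mono ?_))
  rintro z ⟨h1, h2⟩
  refine ⟨Finset.mem_coe.2 (Finset.mem_filter.2 ⟨cell_mem N h2.1, ?_⟩), h2⟩
  have h3 := abs_le.1 ((abs_le_norm_E _ 0).trans (dir_rep N hN h2.1))
  have h4 : dir z 0 = ‖z‖⁻¹ * z 0 := by simp [dir]
  have h5 : 1 ≤ ‖z‖⁻¹ := one_le_inv_iff₀.2 ⟨h2.1, h2.2⟩
  have h6 : ε + 3 * (1 / N) ≤ z 0 := h1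
  have h7 : 0 ≤ z 0 := le_trans (by positivity) h6
  rw [PiLp.sub_apply, h4] at h3
  nlinarith [h3.2]

end Pool.Agent.Lib.MP_92084f_co
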