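import Pool.Agent.Lib.MP_92084f_co.GeoBlock
import Pool.Agent.Lib.MP_92084f_co.Count

set_option autoImplicit false

open MeasureTheory
open scoped ENNReal RealInnerProductSpace

namespace Pool.Agent.Lib.MP_92084f_co

theorem card_bad_shift (a : ℤ) (L g : ℕ) (hL : 0 < L) :
    ((Finset.range L).filter fun t : ℕ => ¬ (g : ℤ) ≤ (a + t) % L).card ≤ g := by
  have hL' : (0 : ℤ) < L := by exact_mod_cast hL
  conv_rhs => rw [← Finset.card_range g]
  refine Finset.card_le_card_of_injOn (fun t : ℕ => ((a + t) % L).toNat) (fun t ht => ?_)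
    (fun t ht t' ht' h => ?_)
  · have h1 := (Finset.mem_filter.1 ht).2
    have h2 := Int.emod_nonneg (a + t) hL'.ne'
    simp only [Finset.coe_range, Set.mem_Iio]
    omega
  · have h1 := Finset.mem_range.1 (Finset.mem_filter.1 ht).1
    have h2 := Finset.mem_range.1 (Finset.mem_filter.1 ht').1
    have h3 := Int.emod_nonneg (a + t) hL'.ne'
    have h4 := Int.emod_nonneg (a + t') hL'.ne'
    have h5 : (a + t) % L = (a + t') % L := by
      have h' : ((a + t) % L).toNat = ((a + t') % L).toNat := h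
      omega
    have h6 : (t : ℤ) % L = (t' : ℤ) % L := Int.ModEq.add_left_cancel' a h5
    rw [Int.emod_eq_of_lt (by omega) (by omega), Int.emod_eq_of_lt (by omega) (by omega)] at h6
    exact_mod_cast h6

theorem exists_shift (S : Finset (Fin 8 → ℤ)) (n : (Fin 8 → ℤ) → ℕ) (L g : ℕ) (hL : 0 < L) :
    ∃ t : ℤ, ((L : ℝ) - 8 * g) * ∑ c ∈ S, (n c : ℝ) ≤
      L * ∑ c ∈ S.filter (fun c => ∀ j, (g : ℤ) ≤ (c j + t) % L), (n c : ℝ) := by
  classical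
  have h1 : ∀ c : Fin 8 → ℤ, (L : ℝ) - 8 * g ≤
      (((Finset.range L).filter fun t : ℕ => ∀ j, (g : ℤ) ≤ (c j + t) % L).card : ℝ) := by
    intro c
    have a1 := Finset.card_filter_add_card_filter_not (s := Finset.range L)
      (fun t : ℕ => ∀ j, (g : ℤ) ≤ (c j + t) % L)
    have a2 : ((Finset.range L).filter fun t : ℕ => ¬ ∀ j, (g : ℤ) ≤ (c j + t) % L) ⊆
        Finset.univ.biUnion fun j : Fin 8 =>
          (Finset.range L).filter fun t : ℕ => ¬ (g : ℤ) ≤ (c j + t) % L := by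
      intro t ht
      obtain ⟨b1, b2⟩ := Finset.mem_filter.1 ht
      obtain ⟨j, hj⟩ := not_forall.1 b2
      exact Finset.mem_biUnion.2 ⟨j, Finset.mem_univ _, Finset.mem_filter.2 ⟨b1, hj⟩⟩
    have a3 := (Finset.card_le_card a2).trans (Finset.card_biUnion_le.trans
      (Finset.sum_le_sum fun j _ => card_bad_shift (c j) L g hL))
    simp only [Finset.sum_const, Finset.card_univ, Fintype.card_fin, smul_eq_mul,
      Finset.card_range] at a1 a3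
    have : L ≤ ((Finset.range L).filter fun t : ℕ => ∀ j, (g : ℤ) ≤ (c j + t) % L).card + 8 * g := by
      omega
    have h' : (L : ℝ) ≤ (((Finset.range L).filter fun t : ℕ =>
        ∀ j, (g : ℤ) ≤ (c j + t) % L).card : ℝ) + 8 * g := by exact_mod_cast this
    linarith
  have h2 : ∑ _t ∈ Finset.range L, ((L : ℝ) - 8 * g) * ∑ c ∈ S, (n c : ℝ) ≤
      ∑ t ∈ Finset.range L, (L : ℝ) *
        ∑ c ∈ S.filter (fun c => ∀ j, (g : ℤ) ≤ (c j + (t : ℕ)) % L), (n c : ℝ) := by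
    rw [← Finset.mul_sum (Finset.range L) _ (L : ℝ), Finset.sum_const, Finset.card_range,
      nsmul_eq_mul]
    refine mul_le_mul_of_nonneg_left ?_ (Nat.cast_nonneg L)
    simp only [Finset.sum_filter]
    rw [Finset.sum_comm, Finset.mul_sum]
    refine Finset.sum_le_sum fun c _ => ?_
    rw [← Finset.sum_filter, Finset.sum_const, nsmul_eq_mul]
    exact mul_le_mul_of_nonneg_right (h1 c) (Nat.cast_nonneg _)
  obtain ⟨t, _, ht⟩ := Finset.exists_le_of_sum_le ⟨0, Finset.mem_range.2 hL⟩ h2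
  exact ⟨t, ht⟩

theorem floor_mass (m : ℝ≥0∞) (hm : m ≠ ⊤) (t : ℝ) (ht : 0 < t) :
    (⌊m.toReal / (t * v0.toReal)⌋₊ : ℝ≥0∞) * (ENNReal.ofReal t * v0) ≤ m := by
  have h0 : 0 < v0.toReal := ENNReal.toReal_pos v0_ne_zero v0_ne_top
  rw [← ENNReal.toReal_le_toReal (ENNReal.mul_ne_top (ENNReal.natCast_ne_top _) (omega_ne_top t))
    hm, ENNReal.toReal_mul, ENNReal.toReal_mul, ENNReal.toReal_ofReal ht.le,
    ENNReal.toReal_natCast, ← le_div_iff₀ (by positivity)]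
  exact Nat.floor_le (by positivity)

theorem ceil_mass (m : ℝ≥0∞) (hm : m ≠ ⊤) (t : ℝ) (ht : 0 < t) :
    m ≤ (⌈m.toReal / (t * v0.toReal)⌉₊ : ℝ≥0∞) * (ENNReal.ofReal t * v0) := by
  have h0 : 0 < v0.toReal := ENNReal.toReal_pos v0_ne_zero v0_ne_top
  rw [← ENNReal.toReal_le_toReal hm
    (ENNReal.mul_ne_top (ENNReal.natCast_ne_top _) (omega_ne_top t)),
    ENNReal.toReal_mul, ENNReal.toReal_mul, ENNReal.toReal_ofReal ht.le,
    ENNReal.toReal_natCast, ← div_le_iff₀ (by positivity)]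
  exact Nat.le_ceil _

open Classical in
theorem countU (N : ℕ) (hN : 0 < N) (ε a w : ℝ) (g T : ℕ) (ha0 : 0 < a) (ha1 : a ≤ 1 / 30)
    (hε0 : 0 < ε) (hsε : 3 * (1 / (N : ℝ)) ≤ ε) (hε2 : 4374 * ε ≤ a * V0) (hw : 0 < w)
    (hC : ((cells N).card : ℝ) ≤ a * (V0 / w)) (hT8 : 8 ≤ a * T) (hgT : 0 < g * T) :
    ∃ t : ℤ, (1 - a) * (1 / 2 - 2 * a) * (V0 / w) ≤
      ((items (((cells N).filter fun c => ε ≤ rep N c 0).filter
        fun c => ∀ j, (g : ℤ) ≤ (c j + t) % ((g * T : ℕ) : ℤ))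
        fun c => ⌊(mass N c).toReal / w⌋₊).card : ℝ) := by
  have hV := V0_pos
  obtain ⟨t, ht⟩ := exists_shift ((cells N).filter fun c => ε ≤ rep N c 0)
    (fun c => ⌊(mass N c).toReal / w⌋₊) (g * T) g hgT
  refine ⟨t, ?_⟩
  have q4 := good_mass N hN ε hε0
  have q3 : ((((cells N).filter fun c => ε ≤ rep N c 0).card : ℕ) : ℝ) ≤ (cells N).card := by
    exact_mod_cast Finset.card_le_card (Finset.filter_subset _ _)
  generalize ((cells N).filter fun c => ε ≤ rep N c 0) = G at *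
  have q1 : (1 / 2 - 2 * a) * (V0 / w) ≤ ∑ c ∈ G, (⌊(mass N c).toReal / w⌋₊ : ℝ) := by
    have q2 : ∑ c ∈ G, ((mass N c).toReal / w - 1) ≤ ∑ c ∈ G, (⌊(mass N c).toReal / w⌋₊ : ℝ) :=
      Finset.sum_le_sum fun c _ => (Nat.sub_one_lt_floor _).le
    rw [Finset.sum_sub_distrib, ← Finset.sum_div, Finset.sum_const, nsmul_eq_mul, mul_one] at q2
    have q5 : (1 / 2 - a) * V0 ≤ ∑ c ∈ G, (mass N c).toReal := by
      refine le_trans ?_ q4
      linarith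
    have q6 : (1 / 2 - a) * (V0 / w) ≤ (∑ c ∈ G, (mass N c).toReal) / w := by
      rw [← mul_div_assoc]
      gcongr
    linarith
  rw [card_items, Nat.cast_sum]
  have q7 : (0 : ℝ) < ((g * T : ℕ) : ℝ) := by exact_mod_cast hgT
  refine le_of_mul_le_mul_left (le_trans ?_ ht) q7
  have q8 : ((g * T : ℕ) : ℝ) * (1 - a) ≤ ((g * T : ℕ) : ℝ) - 8 * g := by
    have := mul_le_mul_of_nonneg_left hT8 (Nat.cast_nonneg (α := ℝ) g)
    push_cast; linarith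
  have q9 : 0 ≤ (1 / 2 - 2 * a) * (V0 / w) := mul_nonneg (by linarith) (by positivity)
  calc _ = ((g * T : ℕ) : ℝ) * (1 - a) * ((1 / 2 - 2 * a) * (V0 / w)) := by ring
    _ ≤ _ := mul_le_mul q8 q1 q9 (le_trans (mul_nonneg q7.le (by linarith)) q8)

theorem countK (N : ℕ) (a w w' : ℝ) (ha0 : 0 < a) (ha1 : a ≤ 1 / 30) (hw : 0 < w)
    (hw' : w' = (1 - a / 16) ^ 8 * w) (hC : ((cells N).card : ℝ) ≤ a * (V0 / w)) :
    ((items (cells N) fun c => ⌈(mass N c).toReal / w'⌉₊).card : ℝ) ≤ (1 + 2 * a) * (V0 / w) := by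
  have hV := V0_pos
  rw [card_items, Nat.cast_sum]
  have q0 : 0 < 1 - a / 16 := by linarith
  have q1 : 0 < w' := by rw [hw']; positivity
  have q2 : ∑ c ∈ cells N, (⌈(mass N c).toReal / w'⌉₊ : ℝ) ≤
      ∑ c ∈ cells N, ((mass N c).toReal / w' + 1) :=
    Finset.sum_le_sum fun c _ => (Nat.ceil_lt_add_one (by positivity)).le
  rw [Finset.sum_add_distrib, ← Finset.sum_div, Finset.sum_const, nsmul_eq_mul, mul_one] at q2
  have q3 : 1 - 8 * (a / 16) ≤ (1 - a / 16) ^ 8 := by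
    have := one_add_mul_le_pow (a := -(a / 16)) (by linarith) 8
    simpa [sub_eq_add_neg] using this
  have q4 : (∑ c ∈ cells N, (mass N c).toReal) / w' ≤ (1 + a) * (V0 / w) := by
    rw [div_le_iff₀ q1, hw']
    have e : (1 + a) * (V0 / w) * ((1 - a / 16) ^ 8 * w) = (1 + a) * (1 - a / 16) ^ 8 * V0 := by
      field_simp
    rw [e]
    have q5 : 1 ≤ (1 + a) * (1 - a / 16) ^ 8 := by
      have q6 : 1 ≤ (1 + a) * (1 - 8 * (a / 16)) := by nlinarith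
      exact q6.trans (mul_le_mul_of_nonneg_left q3 (by linarith))
    exact (sum_mass_le N (cells N)).trans (le_mul_of_one_le_left hV.le q5)
  linarith

theorem countC (N : ℕ) (hN : 3 ≤ N) (a : ℝ) (ha0 : 0 < a) (ha1 : a ≤ 1 / 30) :
    ((cells N).card : ℝ) ≤ a * (V0 / (1 ^ 8 * (a / 768 * (1 / N)) ^ 7 * v0.toReal)) := by
  have hV := V0_pos
  have hw0 : 0 < v0.toReal := ENNReal.toReal_pos v0_ne_zero v0_ne_top
  have hw1 : v0.toReal ≤ 1 := by simpa using ENNReal.toReal_mono ENNReal.one_ne_top v0_le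
  have hN0 : (0 : ℝ) < N := by exact_mod_cast (by omega : 0 < N)
  refine (card_cells N hN).trans ?_
  rw [← mul_div_assoc, le_div_iff₀ (by positivity)]
  have e : 768 * (N : ℝ) ^ 7 * V0 * (1 ^ 8 * (a / 768 * (1 / N)) ^ 7 * v0.toReal) =
      768 * ((a / 768) ^ 7 * v0.toReal) * V0 := by field_simp
  have h1 : (a / 768) ^ 7 ≤ a / 768 := pow_le_of_le_one (by positivity) (by linarith) (by norm_num)
  have h2 : (a / 768) ^ 7 * v0.toReal ≤ a / 768 :=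
    (mul_le_of_le_one_right (by positivity) hw1).trans h1
  rw [e]
  exact mul_le_mul_of_nonneg_right (by linarith) hV.le

theorem gap_numbers (ε b T : ℝ) (hε0 : 0 < ε) (hε1 : ε ≤ 1) (hb0 : 0 < b) (hb1 : b ≤ 1)
    (hT : 1 ≤ T) : ∃ r : ℝ, 0 < r ∧ r ≤ 1 ∧ 3 * T * r ≤ 1 / 70 ∧ 25 * (3 * T * r) ^ 2 ≤ b ∧
      32 * (70 * (3 * T * r) ^ 2) ≤ ε * (r / 2) ∧
      20 * (3 * T * r) * (70 * (3 * T * r) ^ 2) + ε * r ^ 2 / 64 ≤ ε * (r / 2) ^ 2 / 8 := by
  have hT0 : 0 < T := by linarith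
  obtain ⟨r, hr0, hr⟩ : ∃ r : ℝ, 0 < r ∧ 10 ^ 7 * (T ^ 3 * r) = ε * b :=
    ⟨ε * b / (10 ^ 7 * T ^ 3), by positivity, by field_simp⟩
  have h1 : ε * b ≤ ε := mul_le_of_le_one_right hε0.le hb1
  have h2 : ε * b ≤ b := mul_le_of_le_one_left hb0.le hε1
  have h3 : T ^ 2 * r ≤ T ^ 3 * r :=
    mul_le_mul_of_nonneg_right (pow_le_pow_right₀ hT (by norm_num)) hr0.le
  have h4 : T * r ≤ T ^ 3 * r :=
    mul_le_mul_of_nonneg_right (le_self_pow₀ hT (by norm_num)) hr0.le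
  have h5 : r ≤ T * r := le_mul_of_one_le_left hr0.le hT
  have h6 : T ^ 2 * r * r ≤ T ^ 2 * r := mul_le_of_le_one_right (by positivity) (by linarith)
  have h7 := mul_le_mul_of_nonneg_right (show 40320 * (T ^ 2 * r) ≤ ε by linarith) hr0.le
  have h8 := mul_le_mul_of_nonneg_right (show 2419200 * (T ^ 3 * r) ≤ ε by linarith)
    (sq_nonneg r)
  refine ⟨r, hr0, by linarith, by linarith, ?_, ?_, ?_⟩
  · have : 25 * (3 * T * r) ^ 2 = 225 * (T ^ 2 * r * r) := by ring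
    linarith
  · have : 32 * (70 * (3 * T * r) ^ 2) = 40320 * (T ^ 2 * r) * r / 2 := by ring
    linarith
  · have : 20 * (3 * T * r) * (70 * (3 * T * r) ^ 2) = 2419200 * (T ^ 3 * r) * r ^ 2 / 64 := by ring
    have e : ε * (r / 2) ^ 2 / 8 = ε * r ^ 2 / 32 := by ring
    linarith

theorem block (θ : ℝ) (hθ : 0 < θ) (hθ1 : θ ≤ 1) : ∃ β γ γ' : ℝ, 0 < β ∧ 0 < γ ∧ γ ≤ 1 ∧
    0 < γ' ∧ γ' ≤ 1 ∧ ∃ N0 : ℕ,
    ∀ N : ℕ, N0 ≤ N → ∃ (U K : Finset ((Fin 8 → ℤ) × ℕ)) (c : ↥U → ↥U → ↥K),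
      β * N ^ 7 ≤ U.card ∧ (K.card : ℝ) ≤ (2 + θ) * (β * N ^ 7) ∧
      Pot c γ (γ' * (1 / N) ^ 2) := by
  classical
  have hV := V0_pos
  have hw0 : 0 < v0.toReal := ENNReal.toReal_pos v0_ne_zero v0_ne_top
  obtain ⟨a, ha⟩ : ∃ a : ℝ, θ = 30 * a := ⟨θ / 30, by ring⟩
  have ha0 : 0 < a := by linarith
  have ha1 : a ≤ 1 / 30 := by linarith
  have hfin : 1 + 2 * a ≤ (2 + θ) * ((1 - a) * (1 / 2 - 2 * a)) := by
    rw [ha]
    nlinarith [mul_pos (mul_pos ha0 ha0) ha0, mul_le_mul_of_nonneg_left ha1 ha0.le]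
  have hβ : 0 < (1 - a) * (1 / 2 - 2 * a) := mul_pos (by linarith) (by linarith)
  obtain ⟨T, hT⟩ := exists_nat_ge (8 / a)
  have hT8 : 8 ≤ a * T := by rwa [div_le_iff₀' ha0] at hT
  have hT3 : (1 : ℝ) ≤ T := by nlinarith
  have hT1 : 0 < T := by exact_mod_cast (by linarith : (0 : ℝ) < T)
  obtain ⟨ε, hε0, hε1, hε2⟩ : ∃ ε : ℝ, 0 < ε ∧ ε ≤ 1 ∧ 4374 * ε ≤ a * V0 :=
    ⟨min 1 (a * V0 / 4374), lt_min one_pos (by positivity), min_le_left _ _, by
      have := min_le_right 1 (a * V0 / 4374)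
      linarith⟩
  obtain ⟨r, hr0, hr1, hη1, hηb, hw1, hw2⟩ := gap_numbers ε (a / 16) T hε0 hε1 (by positivity)
    (by linarith) hT3
  have hl1 : a / 768 ≤ 1 := by linarith
  obtain ⟨N0, hN0⟩ := exists_nat_ge (1 / (3 * T * r) ^ 2 + 3 / ε + 2 / r + 3)
  refine ⟨(1 - a) * (1 / 2 - 2 * a) * (V0 / ((a / 768) ^ 7 * v0.toReal)), ε * r ^ 2 / 64,
    (a / 768) ^ 2, by positivity, by positivity, by
      have := mul_le_one₀ hε1 (sq_nonneg r) (pow_le_one₀ hr0.le hr1)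
      linarith, by positivity, pow_le_one₀ (by positivity) hl1, N0, fun N hN => ?_⟩
  have hN1 : (N0 : ℝ) ≤ N := by exact_mod_cast hN
  have p1 : (0 : ℝ) < 1 / (3 * T * r) ^ 2 := by positivity
  have p2 : 0 < 3 / ε := by positivity
  have p3 : 0 < 2 / r := by positivity
  have hN3 : (3 : ℝ) ≤ N := by linarith
  have hNp : (0 : ℝ) < N := by linarith
  have hN0' : 0 < N := by exact_mod_cast hNp
  have hsε : 3 * (1 / (N : ℝ)) ≤ ε := by
    rw [mul_one_div, div_le_iff₀ hNp, ← div_le_iff₀' hε0]; linarith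
  have hsη : 1 / (N : ℝ) ≤ (3 * T * r) ^ 2 := by
    rw [div_le_iff₀ hNp, ← div_le_iff₀' (by positivity)]; linarith
  have hrN : 2 ≤ r * N := by rw [← div_le_iff₀' hr0]; linarith
  obtain ⟨g, hg1, hg2⟩ : ∃ g : ℕ, (g : ℝ) ≤ r * N ∧ r * N - 1 ≤ g :=
    ⟨⌊r * N⌋₊, Nat.floor_le (by positivity), (Nat.sub_one_lt_floor _).le⟩
  have hg0 : 0 < g := by exact_mod_cast (by linarith : (0 : ℝ) < g)
  have hLη : 3 * (((g * T : ℕ) : ℝ) / N) ≤ 3 * T * r := by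
    rw [← mul_div_assoc, div_le_iff₀ hNp]
    have := mul_le_mul_of_nonneg_right hg1 (Nat.cast_nonneg (α := ℝ) T)
    push_cast
    linarith
  have hwg : r / 2 ≤ g / N := by rw [le_div_iff₀ hNp]; linarith
  have hh : (1 - a / 16) * (1 + 25 * (3 * T * r) ^ 2) ≤ 1 := by
    have : (1 - a / 16) * (1 + 25 * (3 * T * r) ^ 2) ≤ (1 - a / 16) * (1 + a / 16) :=
      mul_le_mul_of_nonneg_left (by linarith) (by linarith)
    nlinarith [sq_nonneg a]
  have hC := countC N (by exact_mod_cast hN3) a ha0 ha1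
  have hX : V0 / ((a / 768) ^ 7 * v0.toReal) * N ^ 7 =
      V0 / (1 ^ 8 * (a / 768 * (1 / N)) ^ 7 * v0.toReal) := by field_simp
  have hγ : (a / 768) ^ 2 * (1 / (N : ℝ)) ^ 2 = (a / 768 * (1 / N)) ^ 2 := by ring
  have hδs : a / 768 * (1 / N) ≤ 1 / (N : ℝ) := mul_le_of_le_one_left (by positivity) hl1
  have hδ0 : 0 < a / 768 * (1 / (N : ℝ)) := by positivity
  rw [mul_assoc _ (V0 / _), hX, hγ]
  generalize a / 768 * (1 / (N : ℝ)) = δ at *
  have hw : 0 < 1 ^ 8 * δ ^ 7 * v0.toReal := by positivity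
  obtain ⟨t, hU⟩ := countU N hN0' ε a _ g T ha0 ha1 hε0 hsε hε2 hw hC hT8 (Nat.mul_pos hg0 hT1)
  have hK := countK N a _ ((1 - a / 16) ^ 8 * δ ^ 7 * v0.toReal) ha0 ha1 hw (by ring) hC
  have hX0 : 0 < V0 / (1 ^ 8 * δ ^ 7 * v0.toReal) := by positivity
  have hSm : ∀ c ∈ ((cells N).filter fun c => ε ≤ rep N c 0).filter
      fun c => ∀ j, (g : ℤ) ≤ (c j + t) % ((g * T : ℕ) : ℤ), c ∈ cells N ∧ ε ≤ rep N c 0 ∧
      ∀ j, (g : ℤ) ≤ (c j + t) % ((g * T : ℕ) : ℤ) := fun c hc => by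
    obtain ⟨q1, q2⟩ := Finset.mem_filter.1 hc
    obtain ⟨q3, q4⟩ := Finset.mem_filter.1 q1
    exact ⟨q3, q4, q2⟩
  have hb : 0 < 1 - a / 16 := by linarith
  obtain ⟨c, hc⟩ := geo_block N hN0' δ ε (1 - a / 16) (3 * T * r) (r / 2) (ε * r ^ 2 / 64) g (g * T)
    t _ _ _ hδ0 hδs hε0 hε1 hb hh (Nat.mul_pos hg0 hT1) hLη hwg hsη hη1 hw1 hw2 hSm
    (fun c _ => floor_mass _ (mass_ne_top N c) _ (by positivity))
    (fun c _ => ceil_mass _ (mass_ne_top N c) _ (by positivity))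
    (Finset.card_pos.1 (by exact_mod_cast (mul_pos hβ hX0).trans_le hU)).to_subtype
  refine ⟨_, _, c, hU, hK.trans ?_, hc⟩
  rw [← mul_assoc]
  exact mul_le_mul_of_nonneg_right hfin hX0.le

end Pool.Agent.Lib.MP_92084f_co
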