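import Mathlib

set_option autoImplicit false

open MeasureTheory
open scoped ENNReal

namespace Pool.Agent.Lib.MP_92084f_co

/-- The pairs `(a, i)` with `a` in `S` and `i < n a`. -/
def items {α : Type*} [DecidableEq α] (S : Finset α) (n : α → ℕ) : Finset (α × ℕ) :=
  S.biUnion fun a => (Finset.range (n a)).image (Prod.mk a)

theorem mem_items {α : Type*} [DecidableEq α] {S : Finset α} {n : α → ℕ} {p : α × ℕ} :
    p ∈ items S n ↔ p.1 ∈ S ∧ p.2 < n p.1 := by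
  obtain ⟨a, i⟩ := p
  simp only [items, Finset.mem_biUnion, Finset.mem_image, Finset.mem_range, Prod.mk.injEq]
  constructor
  · rintro ⟨b, hb, j, hj, rfl, rfl⟩
    exact ⟨hb, hj⟩
  · rintro ⟨h1, h2⟩
    exact ⟨a, h1, i, h2, rfl, rfl⟩

theorem card_items {α : Type*} [DecidableEq α] (S : Finset α) (n : α → ℕ) :
    (items S n).card = ∑ a ∈ S, n a := by
  rw [items, Finset.card_biUnion]
  · refine Finset.sum_congr rfl fun a _ => ?_
    rw [Finset.card_image_of_injective _ (Prod.mk_right_injective a), Finset.card_range]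
  · intro a _ b _ hab
    simp only [Function.onFun, Finset.disjoint_left, Finset.mem_image, Finset.mem_range]
    rintro p ⟨i, _, rfl⟩ ⟨j, _, h⟩
    exact hab (Prod.mk.inj h).1.symm

theorem sum_fibre {X α : Type*} [MeasurableSpace X] (μ : Measure X) (f : X → α) (D : Set X)
    (hf : ∀ a, MeasurableSet (f ⁻¹' {a})) (S : Finset α) :
    ∑ a ∈ S, μ (f ⁻¹' {a} ∩ D) = μ (f ⁻¹' ↑S ∩ D) := by
  have h := sum_measure_preimage_singleton (μ := μ.restrict D) S (f := f) (fun a _ => hf a)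
  have hS : MeasurableSet (f ⁻¹' (↑S : Set α)) := by
    have : f ⁻¹' (↑S : Set α) = ⋃ a ∈ S, f ⁻¹' {a} := by
      ext z; simp
    rw [this]
    exact Finset.measurableSet_biUnion _ fun a _ => hf a
  rw [Measure.restrict_apply hS] at h
  rw [← h]
  exact Finset.sum_congr rfl fun a _ => (Measure.restrict_apply (hf a)).symm

theorem hall_vol {X α β : Type*} [MeasurableSpace X] [DecidableEq α] [DecidableEq β] [Nonempty β]
    (μ : Measure X) (f : X → α) (g : X → β) (D1 D2 : Set X) (S : Finset α) (T : Finset β)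
    (n1 : α → ℕ) (n2 : β → ℕ) (ω : ℝ≥0∞) (hω0 : ω ≠ 0) (hω : ω ≠ ⊤)
    (hf : ∀ a, MeasurableSet (f ⁻¹' {a})) (hg : ∀ b, MeasurableSet (g ⁻¹' {b}))
    (hsub : ∀ z ∈ D1, f z ∈ S → z ∈ D2 ∧ g z ∈ T)
    (h1 : ∀ a ∈ S, (n1 a : ℝ≥0∞) * ω ≤ μ (f ⁻¹' {a} ∩ D1))
    (h2 : ∀ b ∈ T, μ (g ⁻¹' {b} ∩ D2) ≤ (n2 b : ℝ≥0∞) * ω) :
    ∃ F : α × ℕ → β × ℕ, Set.InjOn F ↑(items S n1) ∧
      ∀ p ∈ items S n1, F p ∈ items T n2 ∧ ∃ z ∈ D1, f z = p.1 ∧ g z = (F p).1 := by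
  classical
  let t : ↥(items S n1) → Finset (β × ℕ) := fun p =>
    items (T.filter fun b => ∃ z ∈ D1, f z = p.1.1 ∧ g z = b) n2
  have hall : ∀ s : Finset ↥(items S n1), s.card ≤ (s.biUnion t).card := by
    intro s
    set S' : Finset α := s.image fun p => p.1.1 with hS'
    set T' : Finset β := T.filter fun b => ∃ z ∈ D1, f z ∈ S' ∧ g z = b with hT'
    have hS'S : S' ⊆ S := by
      intro a ha
      obtain ⟨p, _, rfl⟩ := Finset.mem_image.1 ha
      exact (mem_items.1 p.2).1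
    have e1 : s.card ≤ ∑ a ∈ S', n1 a := by
      rw [← card_items]
      refine Finset.card_le_card_of_injOn (fun p => p.1) (fun p hp => ?_)
        (fun p _ q _ h => Subtype.ext h)
      exact Finset.mem_coe.2 (mem_items.2 ⟨Finset.mem_image_of_mem _ hp, (mem_items.1 p.2).2⟩)
    have e2 : ∑ b ∈ T', n2 b ≤ (s.biUnion t).card := by
      rw [← card_items]
      refine Finset.card_le_card fun q hq => ?_
      obtain ⟨hq1, hq2⟩ := mem_items.1 hq
      obtain ⟨hT, z, hz, hz1, hz2⟩ := Finset.mem_filter.1 hq1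
      obtain ⟨p, hp, hp1⟩ := Finset.mem_image.1 hz1
      exact Finset.mem_biUnion.2 ⟨p, hp, mem_items.2
        ⟨Finset.mem_filter.2 ⟨hT, z, hz, hp1.symm, hz2⟩, hq2⟩⟩
    have e3 : ((∑ a ∈ S', n1 a : ℕ) : ℝ≥0∞) * ω ≤ ((∑ b ∈ T', n2 b : ℕ) : ℝ≥0∞) * ω := by
      calc ((∑ a ∈ S', n1 a : ℕ) : ℝ≥0∞) * ω = ∑ a ∈ S', (n1 a : ℝ≥0∞) * ω := by
            rw [Nat.cast_sum, Finset.sum_mul]
        _ ≤ ∑ a ∈ S', μ (f ⁻¹' {a} ∩ D1) := Finset.sum_le_sum fun a ha => h1 a (hS'S ha)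
        _ = μ (f ⁻¹' ↑S' ∩ D1) := sum_fibre μ f D1 hf S'
        _ ≤ μ (g ⁻¹' ↑T' ∩ D2) := by
            refine measure_mono fun z hz => ?_
            obtain ⟨h3, h4⟩ := hsub z hz.2 (hS'S hz.1)
            exact ⟨Finset.mem_coe.2 (Finset.mem_filter.2 ⟨h4, z, hz.2, hz.1, rfl⟩), h3⟩
        _ = ∑ b ∈ T', μ (g ⁻¹' {b} ∩ D2) := (sum_fibre μ g D2 hg T').symm
        _ ≤ ∑ b ∈ T', (n2 b : ℝ≥0∞) * ω :=
            Finset.sum_le_sum fun b hb => h2 b (Finset.mem_filter.1 hb).1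
        _ = _ := by rw [Nat.cast_sum, Finset.sum_mul]
    have e4 : ∑ a ∈ S', n1 a ≤ ∑ b ∈ T', n2 b := by
      have := (ENNReal.mul_le_mul_iff_left hω0 hω).1 e3
      exact_mod_cast this
    omega
  obtain ⟨F, hF1, hF2⟩ := (Finset.all_card_le_biUnion_card_iff_exists_injective t).1 hall
  refine ⟨fun p => if h : p ∈ items S n1 then F ⟨p, h⟩ else (Classical.arbitrary β, 0), ?_, ?_⟩
  · intro p hp q hq h
    have hp' : p ∈ items S n1 := hp
    have hq' : q ∈ items S n1 := hq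
    simp only [dif_pos hp', dif_pos hq'] at h
    exact congrArg Subtype.val (hF1 h)
  · intro p hp
    simp only [dif_pos hp]
    obtain ⟨h3, h4⟩ := mem_items.1 (hF2 ⟨p, hp⟩)
    obtain ⟨h5, h6⟩ := Finset.mem_filter.1 h3
    exact ⟨mem_items.2 ⟨h5, h4⟩, h6⟩

end Pool.Agent.Lib.MP_92084f_co
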