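import Pool.Agent.Lib.MP_92084f_co.Pyr
import Pool.Agent.Lib.MP_92084f_co.Hall

set_option autoImplicit false

open MeasureTheory
open scoped ENNReal RealInnerProductSpace

namespace Pool.Agent.Lib.MP_92084f_co

/-- The grid cell of the direction of a point. -/
noncomputable def cell (N : ℕ) (z : E) : Fin 8 → ℤ := fun j => ⌊(N : ℝ) * (‖z‖⁻¹ * z j)⌋

/-- The punctured closed unit ball. -/
def ballD : Set E := {z | 0 < ‖z‖ ∧ ‖z‖ ≤ 1}

/-- The volume of the cone over a cell inside the unit ball. -/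
noncomputable def mass (N : ℕ) (c : Fin 8 → ℤ) : ℝ≥0∞ := volume (cell N ⁻¹' {c} ∩ ballD)

open Classical in
/-- The cells that meet the unit sphere. -/
noncomputable def cells (N : ℕ) : Finset (Fin 8 → ℤ) :=
  (Fintype.piFinset fun _ => Finset.Icc (-(N : ℤ)) N).filter fun c => ∃ x : E, ‖x‖ = 1 ∧ cell N x = c

open Classical in
/-- A unit vector in a cell. -/
noncomputable def rep (N : ℕ) (c : Fin 8 → ℤ) : E :=
  if h : ∃ x : E, ‖x‖ = 1 ∧ cell N x = c then h.choose else e0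

/-- The direction of a point. -/
noncomputable def dir (z : E) : E := ‖z‖⁻¹ • z

theorem norm_dir {z : E} (hz : 0 < ‖z‖) : ‖dir z‖ = 1 := by
  rw [dir, norm_smul, norm_inv, norm_norm, inv_mul_cancel₀ hz.ne']

theorem cell_dir (N : ℕ) {z : E} (hz : 0 < ‖z‖) : cell N (dir z) = cell N z := by
  funext j
  simp only [cell, norm_dir hz, inv_one, one_mul]
  simp [dir]

theorem cell_unit (N : ℕ) {x : E} (hx : ‖x‖ = 1) (j : Fin 8) : cell N x j = ⌊(N : ℝ) * x j⌋ := by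
  simp [cell, hx]

theorem norm_rep (N : ℕ) (c : Fin 8 → ℤ) : ‖rep N c‖ = 1 := by
  unfold rep
  split_ifs with h
  · exact h.choose_spec.1
  · exact norm_e0

theorem cell_rep (N : ℕ) {c : Fin 8 → ℤ} (hc : c ∈ cells N) : cell N (rep N c) = c := by
  classical
  have h := (Finset.mem_filter.1 hc).2
  unfold rep
  rw [dif_pos h]
  exact h.choose_spec.2

theorem cell_mem (N : ℕ) {z : E} (hz : 0 < ‖z‖) : cell N z ∈ cells N := by
  classical
  refine Finset.mem_filter.2 ⟨Fintype.mem_piFinset.2 fun j => ?_, dir z, norm_dir hz, cell_dir N hz⟩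
  rw [← cell_dir N hz, cell_unit N (norm_dir hz)]
  have h := abs_le_norm_E (dir z) j
  rw [norm_dir hz, abs_le] at h
  have hN : (0 : ℝ) ≤ N := Nat.cast_nonneg N
  rw [Finset.mem_Icc, Int.le_floor, Int.floor_le_iff]
  push_cast
  constructor <;> nlinarith [h.1, h.2]

theorem coord_of_cell (N : ℕ) {x : E} (hx : ‖x‖ = 1) (j : Fin 8) :
    (cell N x j : ℝ) ≤ N * x j ∧ N * x j < cell N x j + 1 := by
  rw [cell_unit N hx]
  exact ⟨Int.floor_le _, Int.lt_floor_add_one _⟩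

theorem close_of_cell (N : ℕ) (hN : 0 < N) {x y : E} (hx : ‖x‖ = 1) (hy : ‖y‖ = 1) (L : ℝ)
    (hL : 0 ≤ L) (h : ∀ j, |(cell N x j : ℝ) - cell N y j| + 1 ≤ L) : ‖x - y‖ ≤ 3 * (L / N) := by
  have hN' : (0 : ℝ) < N := by exact_mod_cast hN
  refine norm_le_of_coord _ _ (by positivity) fun j => ?_
  have h1 := coord_of_cell N hx j
  have h2 := coord_of_cell N hy j
  have h3 := h j
  rw [le_div_iff₀ hN', PiLp.sub_apply, ← abs_of_pos hN', ← abs_mul, abs_le]
  have h4 := le_abs_self ((cell N x j : ℝ) - cell N y j)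
  have h5 := neg_abs_le ((cell N x j : ℝ) - cell N y j)
  constructor <;> nlinarith [h1.1, h1.2, h2.1, h2.2]

theorem far_of_cell (N : ℕ) (hN : 0 < N) {x y : E} (hx : ‖x‖ = 1) (hy : ‖y‖ = 1) (g : ℝ)
    (j : Fin 8) (h : g + 1 ≤ (cell N x j : ℝ) - cell N y j) : g / N ≤ ‖x - y‖ := by
  have hN' : (0 : ℝ) < N := by exact_mod_cast hN
  have h1 := coord_of_cell N hx j
  have h2 := coord_of_cell N hy j
  have h3 := (le_abs_self _).trans (abs_le_norm_E (x - y) j)
  rw [PiLp.sub_apply] at h3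
  rw [div_le_iff₀ hN']
  nlinarith [h1.1, h2.2]

theorem dir_rep (N : ℕ) (hN : 0 < N) {z : E} (hz : 0 < ‖z‖) :
    ‖dir z - rep N (cell N z)‖ ≤ 3 * (1 / N) := by
  refine close_of_cell N hN (norm_dir hz) (norm_rep _ _) 1 zero_le_one fun j => ?_
  rw [cell_rep N (cell_mem N hz), cell_dir N hz]
  simp

theorem measurable_cell (N : ℕ) : Measurable (cell N) := by
  refine measurable_pi_lambda _ fun j => ?_
  exact Measurable.floor (by fun_prop)

theorem measurableSet_ballD : MeasurableSet ballD := by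
  have h1 : MeasurableSet {z : E | 0 < ‖z‖} := measurableSet_lt (by fun_prop) (by fun_prop)
  have h2 : MeasurableSet {z : E | ‖z‖ ≤ 1} := measurableSet_le (by fun_prop) (by fun_prop)
  exact h1.inter h2

theorem mass_iso (N : ℕ) (O : E ≃ₗᵢ[ℝ] E) (c : Fin 8 → ℤ) :
    volume ((fun z => cell N (O z)) ⁻¹' {c} ∩ ballD) = mass N c := by
  have h : MeasurableSet (cell N ⁻¹' {c} ∩ ballD) :=
    (measurable_cell N (measurableSet_singleton c)).inter measurableSet_ballD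
  rw [mass, ← O.measurePreserving.measure_preimage h.nullMeasurableSet]
  congr 1
  ext z
  simp [ballD]

theorem dir_iso (O : E ≃ₗᵢ[ℝ] E) (z : E) : dir (O z) = O (dir z) := by simp [dir]

/-- The central projection of a point is close to its direction. -/
theorem proj_dir {z : E} (hz : 0 < z 0) (r : ℝ) (hr : ‖(z 0)⁻¹ • z - e0‖ ≤ r) :
    ‖(z 0)⁻¹ • z‖ ≤ 1 + r ^ 2 ∧ ‖dir z - (z 0)⁻¹ • z‖ ≤ r ^ 2 := by
  set p : E := (z 0)⁻¹ • z with hp
  have hp0 : p 0 = 1 := by simp [hp, hz.ne']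
  have h1 : ‖p - e0‖ ^ 2 = ‖p‖ ^ 2 - 1 := by
    rw [norm_sub_sq_real, norm_e0]
    have : ⟪p, e0⟫ = 1 := by simp [e0, EuclideanSpace.inner_single_right, hp0]
    rw [this]; ring
  have h2 : ‖p - e0‖ ^ 2 ≤ r ^ 2 := by gcongr
  have h3 : 1 ≤ ‖p‖ := by simpa [hp0] using abs_le_norm_E p 0
  have h4 : ‖p‖ ≤ 1 + r ^ 2 := by nlinarith
  refine ⟨h4, ?_⟩
  have hz' : 0 < ‖z‖ := lt_of_lt_of_le hz ((le_abs_self _).trans (abs_le_norm_E z 0))
  have h5 : dir z = ‖p‖⁻¹ • p := by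
    rw [hp, norm_smul, norm_inv, Real.norm_eq_abs, abs_of_pos hz, smul_smul, dir]
    congr 1
    field_simp
  have h6 : dir z - p = (‖p‖⁻¹ - 1) • p := by rw [h5, sub_smul, one_smul]
  have hp1 : 0 < ‖p‖ := by linarith
  rw [h6, norm_smul, Real.norm_eq_abs, abs_of_nonpos (by simpa using inv_le_one_of_one_le₀ h3)]
  have : -(‖p‖⁻¹ - 1) * ‖p‖ = ‖p‖ - 1 := by field_simp; ring
  rw [this]
  linarith

theorem proj_of_dir {z : E} (hz : 0 < ‖z‖) (η : ℝ) (hη : η ≤ 1 / 2) (h : ‖dir z - e0‖ ≤ η) :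
    0 < z 0 ∧ ‖(z 0)⁻¹ • z - e0‖ ≤ 4 * η := by
  have h1 := abs_le_norm_E (dir z - e0) 0
  have e1 : e0 0 = 1 := by simp [e0]
  rw [PiLp.sub_apply, e1] at h1
  have h2 := abs_le.1 (h1.trans h)
  have e2 : dir z 0 = ‖z‖⁻¹ * z 0 := by simp [dir]
  have h3 : 0 < dir z 0 := by linarith [h2.1]
  have h4 : 0 < z 0 := by
    rw [e2] at h3
    exact (mul_pos_iff_of_pos_left (inv_pos.2 hz)).1 h3
  refine ⟨h4, ?_⟩
  have e3 : (z 0)⁻¹ • z - e0 = (dir z 0)⁻¹ • ((dir z - e0) + (1 - dir z 0) • e0) := by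
    have : (dir z - e0) + (1 - dir z 0) • e0 = dir z - dir z 0 • e0 := by
      rw [sub_smul, one_smul]; abel
    rw [this, smul_sub, smul_smul, inv_mul_cancel₀ h3.ne', one_smul, e2, dir, smul_smul]
    congr 2
    field_simp
  have h5 : ‖(dir z - e0) + (1 - dir z 0) • e0‖ ≤ 2 * η := by
    refine (norm_add_le _ _).trans ?_
    rw [norm_smul, norm_e0, Real.norm_eq_abs, abs_sub_comm]
    linarith [h1.trans h]
  have h6 : (dir z 0)⁻¹ ≤ 2 := by
    rw [inv_le_comm₀ h3 two_pos]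
    linarith [h2.1]
  rw [e3, norm_smul, Real.norm_eq_abs, abs_of_pos (inv_pos.2 h3)]
  calc _ ≤ 2 * (2 * η) := mul_le_mul h6 h5 (norm_nonneg _) zero_le_two
    _ = 4 * η := by ring

end Pool.Agent.Lib.MP_92084f_co
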