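import Pool.Agent.Lib.MP_92084f_co.Cells

set_option autoImplicit false

open MeasureTheory
open scoped ENNReal RealInnerProductSpace

namespace Pool.Agent.Lib.MP_92084f_co

theorem omega_ne_zero (t : ℝ) (ht : 0 < t) : ENNReal.ofReal t * v0 ≠ 0 :=
  mul_ne_zero (by simpa using ht) v0_ne_zero

theorem omega_ne_top (t : ℝ) : ENNReal.ofReal t * v0 ≠ ⊤ :=
  ENNReal.mul_ne_top ENNReal.ofReal_ne_top v0_ne_top

theorem chart_to (N : ℕ) (hN : 0 < N) (δ : ℝ) (hδ : 0 < δ) (O : E ≃ₗᵢ[ℝ] E)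
    (S : Finset (Fin 8 → ℤ)) (n1 : (Fin 8 → ℤ) → ℕ) (η : ℝ) (hη : η + 3 * (1 / N) ≤ 1 / 2)
    (hS : ∀ c ∈ S, ‖rep N c - O e0‖ ≤ η)
    (h1 : ∀ c ∈ S, (n1 c : ℝ≥0∞) * (ENNReal.ofReal (1 ^ 8 * δ ^ 7) * v0) ≤ mass N c) :
    ∃ σ : (Fin 8 → ℤ) × ℕ → Fin 7 → ℤ, Set.InjOn σ ↑(items S n1) ∧ ∀ p ∈ items S n1,
      ‖rep N p.1 - O (e0 + qv δ (σ p))‖ ≤ 3 * (1 / N) + 3 * δ + (4 * (η + 3 * (1 / N))) ^ 2 := by
  classical
  have key : ∀ z ∈ ballD, cell N (O z) ∈ S → ‖O (dir z) - rep N (cell N (O z))‖ ≤ 3 * (1 / N) ∧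
      0 < z 0 ∧ ‖(z 0)⁻¹ • z - e0‖ ≤ 4 * (η + 3 * (1 / N)) := by
    intro z hz hc
    have a1 := dir_rep N hN (z := O z) (by simpa using hz.1)
    rw [dir_iso] at a1
    refine ⟨a1, proj_of_dir hz.1 _ hη ?_⟩
    rw [← O.norm_map, map_sub]
    have := norm_sub_le_norm_sub_add_norm_sub (O (dir z)) (rep N (cell N (O z))) (O e0)
    linarith [hS _ hc]
  obtain ⟨F, hF1, hF2⟩ := hall_vol volume (fun z => cell N (O z)) (pyr δ) ballD (slab 1) S
    (Fintype.piFinset fun _ => Finset.Icc (-⌈2 / δ⌉) ⌈2 / δ⌉) n1 (fun _ => 1)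
    (ENNReal.ofReal (1 ^ 8 * δ ^ 7) * v0) (omega_ne_zero _ (by positivity)) (omega_ne_top _)
    (fun a => ((measurable_cell N).comp O.continuous.measurable) (measurableSet_singleton a))
    (fun b => measurable_pyr δ (measurableSet_singleton b))
    (fun z hz hc => by
      obtain ⟨_, a2, a3⟩ := key z hz hc
      refine ⟨⟨a2, ((le_abs_self _).trans (abs_le_norm_E z 0)).trans hz.2⟩,
        Fintype.mem_piFinset.2 fun j => ?_⟩
      have a4 := (abs_le_norm_E _ j.succ).trans a3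
      have e1 : e0 j.succ = 0 := by simp [e0]
      simp only [PiLp.sub_apply, PiLp.smul_apply, smul_eq_mul, e1, sub_zero] at a4
      have a5 := abs_le.1 (a4.trans (by linarith : 4 * (η + 3 * (1 / (N : ℝ))) ≤ 2))
      have e2 : z j.succ / (δ * z 0) = ((z 0)⁻¹ * z j.succ) / δ := by field_simp
      have a6 := Int.le_ceil (2 / δ)
      have a7 : -(2 / δ) ≤ ((z 0)⁻¹ * z j.succ) / δ := by
        rw [← neg_div]; exact div_le_div_of_nonneg_right a5.1 hδ.le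
      have a8 : ((z 0)⁻¹ * z j.succ) / δ ≤ 2 / δ := div_le_div_of_nonneg_right a5.2 hδ.le
      simp only [pyr, pyrP]
      rw [e2, Finset.mem_Icc, Int.le_floor, Int.floor_le_iff]
      push_cast
      constructor <;> linarith)
    (fun a ha => by rw [mass_iso]; exact h1 a ha)
    (fun b _ => by rw [vol_pyr δ 1 hδ one_pos]; simp)
  refine ⟨fun p => (F p).1, fun p hp q hq h => hF1 hp hq (Prod.ext h ?_), fun p hp => ?_⟩
  · have a1 := (mem_items.1 (hF2 p hp).1).2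
    have a2 := (mem_items.1 (hF2 q hq).1).2
    omega
  · obtain ⟨_, z, hz, h2, h3⟩ := hF2 p hp
    obtain ⟨a1, a2, a3⟩ := key z hz (by rw [h2]; exact (mem_items.1 hp).1)
    have a4 := (proj_dir a2 _ a3).2
    have a5 := pyr_close δ hδ z a2
    rw [h3] at a5
    rw [h2, norm_sub_rev] at a1
    have a6 := norm_sub_le_norm_sub_add_norm_sub (rep N p.1) (O (dir z)) (O (e0 + qv δ (F p).1))
    have a7 := norm_sub_le_norm_sub_add_norm_sub (dir z) ((z 0)⁻¹ • z) (e0 + qv δ (F p).1)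
    rw [← map_sub, O.norm_map] at a6
    linarith

theorem chart_from (N : ℕ) (hN : 0 < N) (δ : ℝ) (hδ : 0 < δ) (O : E ≃ₗᵢ[ℝ] E) (h : ℝ) (h0 : 0 < h)
    (η : ℝ) (hη : h * (1 + (η + 3 * δ) ^ 2) ≤ 1) (n2 : (Fin 8 → ℤ) → ℕ)
    (h2 : ∀ c ∈ cells N, mass N c ≤ (n2 c : ℝ≥0∞) * (ENNReal.ofReal (h ^ 8 * δ ^ 7) * v0)) :
    ∃ ι : (Fin 7 → ℤ) → (Fin 8 → ℤ) × ℕ, Set.InjOn ι {k | ‖qv δ k‖ ≤ η} ∧ ∀ k, ‖qv δ k‖ ≤ η →
      ι k ∈ items (cells N) n2 ∧
      ‖rep N (ι k).1 - O (e0 + qv δ k)‖ ≤ 3 * (1 / N) + 3 * δ + (η + 3 * δ) ^ 2 := by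
  classical
  set S : Finset (Fin 7 → ℤ) :=
    (Fintype.piFinset fun _ => Finset.Icc (-⌈η / δ⌉) ⌈η / δ⌉).filter fun k => ‖qv δ k‖ ≤ η with hS
  have hmem : ∀ k, ‖qv δ k‖ ≤ η → (k, 0) ∈ items S fun _ => 1 := fun k hk => by
    refine mem_items.2 ⟨Finset.mem_filter.2 ⟨Fintype.mem_piFinset.2 fun j => ?_, hk⟩, one_pos⟩
    have a1 := abs_le.1 ((abs_le_norm_E _ j.succ).trans hk)
    rw [qv_succ] at a1
    have a2 := Int.le_ceil (η / δ)
    have a3 : (k j : ℝ) ≤ η / δ := by rw [le_div_iff₀ hδ]; linarith [a1.2]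
    have a4 : -(η / δ) ≤ (k j : ℝ) := by rw [← neg_div, div_le_iff₀ hδ]; linarith [a1.1]
    rw [Finset.mem_Icc]
    constructor
    · have : ((-⌈η / δ⌉ : ℤ) : ℝ) ≤ k j := by push_cast; linarith
      exact_mod_cast this
    · have : (k j : ℝ) ≤ ((⌈η / δ⌉ : ℤ) : ℝ) := by linarith
      exact_mod_cast this
  have key : ∀ z ∈ slab h, pyr δ z ∈ S → ‖(z 0)⁻¹ • z - e0‖ ≤ η + 3 * δ ∧ z ∈ ballD := by
    intro z hz hk
    have a1 := pyr_close δ hδ z hz.1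
    have a2 := (Finset.mem_filter.1 hk).2
    have a3 : ‖(z 0)⁻¹ • z - e0‖ ≤ η + 3 * δ := by
      have := norm_sub_le_norm_sub_add_norm_sub ((z 0)⁻¹ • z) (e0 + qv δ (pyr δ z)) e0
      rw [add_sub_cancel_left] at this
      linarith
    refine ⟨a3, lt_of_lt_of_le hz.1 ((le_abs_self _).trans (abs_le_norm_E z 0)), ?_⟩
    have a4 := (proj_dir hz.1 _ a3).1
    rw [norm_smul, norm_inv, Real.norm_eq_abs, abs_of_pos hz.1, inv_mul_le_iff₀ hz.1] at a4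
    have a5 : z 0 * (1 + (η + 3 * δ) ^ 2) ≤ h * (1 + (η + 3 * δ) ^ 2) := by
      gcongr
      exact hz.2
    linarith
  obtain ⟨F, hF1, hF2⟩ := hall_vol volume (pyr δ) (fun z => cell N (O z)) (slab h) ballD S
    (cells N) (fun _ => 1) n2
    (ENNReal.ofReal (h ^ 8 * δ ^ 7) * v0) (omega_ne_zero _ (by positivity)) (omega_ne_top _)
    (fun b => measurable_pyr δ (measurableSet_singleton b))
    (fun a => ((measurable_cell N).comp O.continuous.measurable) (measurableSet_singleton a))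
    (fun z hz hk => ⟨(key z hz hk).2, cell_mem N (by simpa using (key z hz hk).2.1)⟩)
    (fun b _ => by rw [vol_pyr δ h hδ h0]; simp)
    (fun a ha => by rw [mass_iso]; exact h2 a ha)
  refine ⟨fun k => F (k, 0), fun k hk l hl e => (Prod.mk.inj (hF1 (hmem k hk) (hmem l hl) e)).1,
    fun k hk => ?_⟩
  obtain ⟨a0, z, hz, h3, h4⟩ := hF2 _ (hmem k hk)
  refine ⟨a0, ?_⟩
  obtain ⟨a1, a2⟩ := key z hz (by rw [h3]; exact (mem_items.1 (hmem k hk)).1)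
  have a3 := dir_rep N hN (z := O z) (by simpa using a2.1)
  rw [dir_iso, h4, norm_sub_rev] at a3
  have a4 := (proj_dir hz.1 _ a1).2
  have a5 := pyr_close δ hδ z hz.1
  rw [h3] at a5
  have a6 := norm_sub_le_norm_sub_add_norm_sub (rep N (F (k, 0)).1) (O (dir z)) (O (e0 + qv δ k))
  have a7 := norm_sub_le_norm_sub_add_norm_sub (dir z) ((z 0)⁻¹ • z) (e0 + qv δ k)
  rw [← map_sub, O.norm_map] at a6
  linarith

end Pool.Agent.Lib.MP_92084f_co
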