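import Pool.Agent.Lib.MP_92084f_co.Oct

set_option autoImplicit false

open scoped RealInnerProductSpace

namespace Pool.Agent.Lib.MP_92084f_co

theorem inner_mul_mul (m : E →ₗ[ℝ] E →ₗ[ℝ] E) (hm : ∀ x y, ‖m x y‖ = ‖x‖ * ‖y‖) (a : E)
    (ha : ‖a‖ = 1) (s t : E) : ⟪m a s, m a t⟫ = ⟪s, t⟫ :=
  (isoL m hm a ha).inner_map_map s t

/-- The potential of one cell. -/
noncomputable def cellPot (m : E →ₗ[ℝ] E →ₗ[ℝ] E) (u0 v0 p y S B : E) : ℝ :=
  -⟪p, y⟫ + ⟪p - (m u0 v0 + S), y - v0⟫ + ⟪m u0 S, m u0 y - (m u0 v0 + B)⟫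

theorem cellPot_near (m : E →ₗ[ℝ] E →ₗ[ℝ] E) (hm : ∀ x y, ‖m x y‖ = ‖x‖ * ‖y‖)
    (hl : ∀ u x, ⟪m u x, x⟫ = u 0 * ‖x‖ ^ 2) (u0 v0 pa pb y y' A B B' : E) (h0 : ‖u0‖ = 1) :
    cellPot m u0 v0 pa y' (A + B) B' - cellPot m u0 v0 pa y (A + B) B
      + cellPot m u0 v0 pb y (A + B') B - cellPot m u0 v0 pb y' (A + B') B'
      = u0 0 * ‖B - B'‖ ^ 2 := by
  rw [← hl]
  simp only [cellPot, inner_sub_left, inner_sub_right, inner_add_left, inner_add_right, map_add,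
    map_sub, inner_mul_mul m hm u0 h0]
  ring

theorem cellPot_approx (m : E →ₗ[ℝ] E →ₗ[ℝ] E) (hm : ∀ x y, ‖m x y‖ = ‖x‖ * ‖y‖)
    (u0 v0 p y S B : E) (κ η : ℝ) (h0 : ‖u0‖ = 1) (hκ : 0 ≤ κ) (hη : 0 ≤ η)
    (h1 : ‖p - (m u0 v0 + S)‖ ≤ κ) (h2 : ‖y - v0‖ ≤ η) (h3 : ‖S‖ ≤ 4 * η)
    (h4 : ‖m u0 y - (m u0 v0 + B)‖ ≤ κ) :
    |cellPot m u0 v0 p y S B + ⟪p, y⟫| ≤ 5 * η * κ := by
  have e1 := abs_real_inner_le_norm (p - (m u0 v0 + S)) (y - v0)
  have e2 := abs_real_inner_le_norm (m u0 S) (m u0 y - (m u0 v0 + B))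
  rw [hm, h0, one_mul] at e2
  have e3 : ‖p - (m u0 v0 + S)‖ * ‖y - v0‖ ≤ κ * η :=
    mul_le_mul h1 h2 (norm_nonneg _) hκ
  have e4 : ‖S‖ * ‖m u0 y - (m u0 v0 + B)‖ ≤ 4 * η * κ :=
    mul_le_mul h3 h4 (norm_nonneg _) (by positivity)
  have : cellPot m u0 v0 p y S B + ⟪p, y⟫ =
      ⟪p - (m u0 v0 + S), y - v0⟫ + ⟪m u0 S, m u0 y - (m u0 v0 + B)⟫ := by
    simp only [cellPot]; ring
  rw [this]
  have := abs_add_le ⟪p - (m u0 v0 + S), y - v0⟫ ⟪m u0 S, m u0 y - (m u0 v0 + B)⟫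
  nlinarith

theorem core {U V K M M' : Type*} (m : E →ₗ[ℝ] E →ₗ[ℝ] E) (hm : ∀ x y, ‖m x y‖ = ‖x‖ * ‖y‖)
    (hl : ∀ u x, ⟪m u x, x⟫ = u 0 * ‖x‖ ^ 2)
    (x : U → E) (y : V → E) (pos : K → E) (c : U → V → K)
    (μ : U → M) (ν : V → M') (u0 : M → E) (v0 : M' → E)
    (A : M → M' → U → E) (B : M → M' → V → E) (ε κ η w γ : ℝ)
    (hx : ∀ u, ‖x u‖ = 1) (hy : ∀ v, ‖y v‖ = 1) (hu0 : ∀ P, ‖u0 P‖ = 1) (hv0 : ∀ Q, ‖v0 Q‖ = 1)
    (hxe : ∀ u, ε ≤ x u 0) (hu0e : ∀ P, ε ≤ u0 P 0)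
    (hsx : ∀ u u', μ u ≠ μ u' → w ≤ ‖x u - x u'‖) (hsy : ∀ v v', ν v ≠ ν v' → w ≤ ‖y v - y v'‖)
    (hdx : ∀ u, ‖x u - u0 (μ u)‖ ≤ η) (hdy : ∀ v, ‖y v - v0 (ν v)‖ ≤ η)
    (hA : ∀ u Q, ‖m (x u) (v0 Q) - (m (u0 (μ u)) (v0 Q) + A (μ u) Q u)‖ ≤ κ)
    (hB : ∀ P v, ‖m (u0 P) (y v) - (m (u0 P) (v0 (ν v)) + B P (ν v) v)‖ ≤ κ)
    (hpos : ∀ u v, ‖pos (c u v) -
      (m (u0 (μ u)) (v0 (ν v)) + (A (μ u) (ν v) u + B (μ u) (ν v) v))‖ ≤ κ)
    (hinj : ∀ u u' v v', μ u = μ u' → ν v = ν v' → c u v = c u' v' →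
      A (μ u) (ν v) u + B (μ u) (ν v) v = A (μ u) (ν v) u' + B (μ u) (ν v) v')
    (hε : 0 < ε) (hε1 : ε ≤ 1) (hκ : 0 ≤ κ) (hκη : κ ≤ η) (hη1 : η ≤ 1) (hη2 : η ^ 2 ≤ κ)
    (hw1 : 32 * κ ≤ ε * w) (hw2 : 20 * η * κ + γ ≤ ε * w ^ 2 / 8) :
    ∃ φ : U → V → ℝ, (∀ u v, |φ u v| ≤ 10) ∧
      ∀ u u' u'' v v', c u v = c u'' v' → c u v' = c u' v →
        (μ u = μ u' ∧ μ u = μ u'' ∧ ν v = ν v' ∧ 0 ≤ φ u'' v' - φ u v + φ u' v - φ u v') ∨
        γ ≤ φ u'' v' - φ u v + φ u' v - φ u v' := by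
  have hη : 0 ≤ η := hκ.trans hκη
  have hw0 : 0 ≤ w := by
    by_contra h
    have : ε * w < 0 := mul_neg_of_pos_of_neg hε (lt_of_not_ge h)
    linarith
  have hw3 : 32 * κ ≤ w := by nlinarith
  have hAn : ∀ u Q, ‖A (μ u) Q u‖ ≤ 2 * η := fun u Q => by
    have e : A (μ u) Q u = m (x u - u0 (μ u)) (v0 Q) -
        (m (x u) (v0 Q) - (m (u0 (μ u)) (v0 Q) + A (μ u) Q u)) := by
      simp only [map_sub, LinearMap.sub_apply]; abel
    have h1 := norm_sub_le (m (x u - u0 (μ u)) (v0 Q))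
      (m (x u) (v0 Q) - (m (u0 (μ u)) (v0 Q) + A (μ u) Q u))
    rw [← e, hm, hv0, mul_one] at h1
    linarith [hA u Q, hdx u]
  have hBn : ∀ P v, ‖B P (ν v) v‖ ≤ 2 * η := fun P v => by
    have e : B P (ν v) v = m (u0 P) (y v - v0 (ν v)) -
        (m (u0 P) (y v) - (m (u0 P) (v0 (ν v)) + B P (ν v) v)) := by
      simp only [map_sub]; abel
    have h1 := norm_sub_le (m (u0 P) (y v - v0 (ν v)))
      (m (u0 P) (y v) - (m (u0 P) (v0 (ν v)) + B P (ν v) v))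
    rw [← e, hm, hu0, one_mul] at h1
    linarith [hB P v, hdy v]
  have herr : ∀ u v, ‖pos (c u v) - m (x u) (y v)‖ ≤ 4 * κ := fun u v => by
    have e : pos (c u v) - m (x u) (y v) =
        (pos (c u v) - (m (u0 (μ u)) (v0 (ν v)) + (A (μ u) (ν v) u + B (μ u) (ν v) v)))
        - (m (x u) (v0 (ν v)) - (m (u0 (μ u)) (v0 (ν v)) + A (μ u) (ν v) u))
        - (m (u0 (μ u)) (y v) - (m (u0 (μ u)) (v0 (ν v)) + B (μ u) (ν v) v))
        - m (x u - u0 (μ u)) (y v - v0 (ν v)) := by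
      simp only [map_sub, LinearMap.sub_apply]; abel
    have h4 : ‖m (x u - u0 (μ u)) (y v - v0 (ν v))‖ ≤ κ := by
      rw [hm]
      calc _ ≤ η * η := mul_le_mul (hdx u) (hdy v) (norm_nonneg _) hη
        _ ≤ κ := by nlinarith
    rw [e]
    refine (norm_sub_le _ _).trans ?_
    have h5 := norm_sub_le ((pos (c u v) - (m (u0 (μ u)) (v0 (ν v)) +
        (A (μ u) (ν v) u + B (μ u) (ν v) v)))
        - (m (x u) (v0 (ν v)) - (m (u0 (μ u)) (v0 (ν v)) + A (μ u) (ν v) u)))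
        (m (u0 (μ u)) (y v) - (m (u0 (μ u)) (v0 (ν v)) + B (μ u) (ν v) v))
    have h6 := norm_sub_le (pos (c u v) - (m (u0 (μ u)) (v0 (ν v)) +
        (A (μ u) (ν v) u + B (μ u) (ν v) v)))
        (m (x u) (v0 (ν v)) - (m (u0 (μ u)) (v0 (ν v)) + A (μ u) (ν v) u))
    linarith [hpos u v, hA u (ν v), hB (μ u) v]
  set φ : U → V → ℝ := fun u v => cellPot m (u0 (μ u)) (v0 (ν v)) (pos (c u v)) (y v)
    (A (μ u) (ν v) u + B (μ u) (ν v) v) (B (μ u) (ν v) v) with hφ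
  have happ : ∀ u v, |φ u v + ⟪pos (c u v), y v⟫| ≤ 5 * η * κ := fun u v =>
    cellPot_approx m hm _ _ _ _ _ _ κ η (hu0 _) hκ hη (hpos u v) (hdy v)
      ((norm_add_le _ _).trans (by linarith [hAn u (ν v), hBn (μ u) v])) (hB _ _)
  refine ⟨φ, fun u v => ?_, fun u u' u'' v v' ha hb => ?_⟩
  · have h1 := happ u v
    have h2 := abs_real_inner_le_norm (pos (c u v) - m (x u) (y v)) (y v)
    rw [hy, mul_one, inner_sub_left, hl, hy] at h2
    have h3 := herr u v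
    have h4 : 5 * η * κ ≤ 5 * κ := by nlinarith
    have h5 : |x u 0| ≤ 1 := by simpa [hx u] using PiLp.norm_apply_le (x u) 0
    rw [abs_le] at h1 h2 h5 ⊢
    constructor <;> linarith [h1.1, h1.2, h2.1, h2.2, h5.1, h5.2]
  · by_cases hd : ‖y v - y v'‖ < w / 2
    · have hν : ν v = ν v' := by
        by_contra h
        linarith [hsy v v' h]
      have key : ∀ (z : U) (s t : V), c u s = c z t → ‖y s - y t‖ < w / 2 → μ u = μ z := by
        intro z s t hc hst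
        by_contra h
        have h1 := hsx u z h
        have e : m (x u - x z) (y t) = (pos (c z t) - m (x z) (y t))
            - (pos (c u s) - m (x u) (y s)) - m (x u) (y s - y t) := by
          rw [hc]; simp only [map_sub, LinearMap.sub_apply]; abel
        have h2 : ‖m (x u - x z) (y t)‖ = ‖x u - x z‖ := by rw [hm, hy, mul_one]
        have h3 : ‖m (x u) (y s - y t)‖ = ‖y s - y t‖ := by rw [hm, hx, one_mul]
        have h4 := norm_sub_le ((pos (c z t) - m (x z) (y t)) - (pos (c u s) - m (x u) (y s)))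
          (m (x u) (y s - y t))
        have h5 := norm_sub_le (pos (c z t) - m (x z) (y t)) (pos (c u s) - m (x u) (y s))
        rw [← e, h2, h3] at h4
        have h6 := herr z t
        have h7 := herr u s
        have : 0 < w := by linarith [norm_nonneg (y s - y t)]
        linarith
      have hμ2 : μ u = μ u'' := key u'' v v' ha hd
      have hμ1 : μ u = μ u' := key u' v' v hb (by rwa [norm_sub_rev])
      have e1 := hinj u u'' v v' hμ2 hν ha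
      have e2 := hinj u u' v' v hμ1 hν.symm hb
      have e3 := cellPot_near m hm hl (u0 (μ u)) (v0 (ν v)) (pos (c u v)) (pos (c u v')) (y v)
        (y v') (A (μ u) (ν v) u) (B (μ u) (ν v) v) (B (μ u) (ν v) v') (hu0 _)
      have e4 : φ u'' v' - φ u v + φ u' v - φ u v' =
          u0 (μ u) 0 * ‖B (μ u) (ν v) v - B (μ u) (ν v) v'‖ ^ 2 := by
        rw [← e3]
        simp only [hφ]
        rw [← hν] at e2
        rw [← hμ2, ← hμ1, ← hν, ← ha, ← hb, ← e1, ← e2]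
      refine Or.inl ⟨hμ1, hμ2, hν, ?_⟩
      rw [e4]
      exact mul_nonneg (hε.le.trans (hu0e _)) (by positivity)
    · right
      have hd' : w / 2 ≤ ‖y v - y v'‖ := le_of_not_gt hd
      set d := ‖y v - y v'‖ with hdd
      have h1 := happ u v
      have h2 := happ u'' v'
      have h3 := happ u v'
      have h4 := happ u' v
      rw [← ha] at h2
      rw [← hb] at h4
      have e : ⟪pos (c u v) - pos (c u v'), y v - y v'⟫ = x u 0 * d ^ 2 +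
          ⟪(pos (c u v) - m (x u) (y v)) - (pos (c u v') - m (x u) (y v')), y v - y v'⟫ := by
        rw [hdd, ← hl, ← inner_add_left]
        congr 1
        simp only [map_sub]; abel
      have h5 := abs_real_inner_le_norm
        ((pos (c u v) - m (x u) (y v)) - (pos (c u v') - m (x u) (y v'))) (y v - y v')
      have h6 := norm_sub_le (pos (c u v) - m (x u) (y v)) (pos (c u v') - m (x u) (y v'))
      have h7 : ‖(pos (c u v) - m (x u) (y v)) - (pos (c u v') - m (x u) (y v'))‖ * d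
          ≤ 8 * κ * d := by
        have := herr u v
        have := herr u v'
        gcongr
        linarith
      have e' : ⟪pos (c u v) - pos (c u v'), y v - y v'⟫ = ⟪pos (c u v), y v⟫
          - ⟪pos (c u v), y v'⟫ - ⟪pos (c u v'), y v⟫ + ⟪pos (c u v'), y v'⟫ := by
        simp only [inner_sub_left, inner_sub_right]; ring
      have hd0 : 0 ≤ d := norm_nonneg _
      have h8 : ε * d ^ 2 ≤ x u 0 * d ^ 2 := by gcongr; exact hxe u
      have h9 : 8 * κ * d ≤ ε * d ^ 2 / 2 := by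
        have : 16 * κ ≤ ε * d := by nlinarith
        nlinarith
      have h10 : ε * w ^ 2 / 8 ≤ ε * d ^ 2 / 2 := by
        have : w ^ 2 ≤ 4 * d ^ 2 := by nlinarith
        nlinarith
      rw [abs_le] at h1 h2 h3 h4 h5
      linarith [h1.1, h1.2, h2.1, h2.2, h3.1, h3.2, h4.1, h4.2, h5.1, h5.2]

theorem fine_pot (A A' A'' B B' : E) (h1 : A + B = A'' + B') (h2 : A + B' = A' + B) :
    -⟪A'', B'⟫ - -⟪A, B⟫ + -⟪A', B⟫ - -⟪A, B'⟫ = ‖B - B'‖ ^ 2 := by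
  have e1 : A'' = A + B - B' := by rw [h1]; abel
  have e2 : A' = A + B' - B := by rw [h2]; abel
  rw [e1, e2, ← real_inner_self_eq_norm_sq]
  simp only [inner_sub_left, inner_sub_right, inner_add_left, real_inner_comm B B']
  ring

end Pool.Agent.Lib.MP_92084f_co
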