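import Mathlib

set_option autoImplicit false

namespace Pool.Agent.Lib.MP_92084f_co

theorem le_two_rpow (κ x : ℝ) (hκ : 0 < κ) (hx : 0 ≤ x) : x ≤ 2 / κ * (2 : ℝ) ^ (κ * x) := by
  have h1 := Real.add_one_le_exp (Real.log 2 * (κ * x))
  rw [← Real.rpow_def_of_pos two_pos] at h1
  have h2 := Real.log_two_gt_d9
  rw [div_mul_eq_mul_div, le_div_iff₀ hκ]
  have h3 : 0 ≤ κ * x := by positivity
  nlinarith

theorem exists_two_rpow_ge (y : ℝ) : ∃ B : ℝ, 0 ≤ B ∧ y ≤ (2 : ℝ) ^ B := by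
  refine ⟨2 * |y|, by positivity, ?_⟩
  have h := le_two_rpow 2 |y| two_pos (abs_nonneg y)
  rw [div_self two_ne_zero, one_mul] at h
  exact (le_abs_self y).trans h

theorem exponent_bound (ρ t m B : ℝ) (hρ : 7 * ρ ^ 2 = 2) (hρ0 : 0 < ρ) (ht : 1 ≤ t) (hB : 0 ≤ B)
    (hm : ρ * t ≤ m) (hm1 : 1 ≤ m) : (t ^ 2 + m * B) / (7 * m) * 2 ≤ ρ * t + B := by
  have h0 : 0 < 7 * m := by linarith
  rw [div_mul_eq_mul_div, div_le_iff₀ h0]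
  have h2 : ρ * t * (7 * (ρ * t)) ≤ ρ * t * (7 * m) :=
    mul_le_mul_of_nonneg_left (by linarith) (by positivity)
  have h3 : ρ * t * (7 * (ρ * t)) = 7 * ρ ^ 2 * t ^ 2 := by ring
  have h4 : 0 ≤ m * B := by positivity
  rw [h3, hρ] at h2
  linarith

theorem final_est (β D κ ρ t B C ε n M N : ℝ) (m : ℕ) (hβ : 0 < β) (hD : 0 ≤ D) (hκ : 0 < κ)
    (hκ1 : κ ≤ 1)
    (hκε : 26 * κ ≤ ε) (hρ : 7 * ρ ^ 2 = 2) (hρ0 : 0 < ρ) (ht : 1 ≤ t) (hB0 : 0 ≤ B)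
    (hB : β⁻¹ ≤ (2 : ℝ) ^ B) (hC : (2 / κ) ^ 3 * D ^ 3 ≤ (2 : ℝ) ^ C)
    (htC : C + 14 + B ≤ ε * t / 2) (hn : n = (2 : ℝ) ^ (t ^ 2)) (hM : 0 ≤ M) (hN : 0 ≤ N)
    (hNM : N ≤ 2 ^ κ * M) (hm : 1 ≤ m) (hm1 : ρ * t ≤ m)
    (hm2 : (m : ℝ) ≤ ρ * t + 1) (hfail : β ^ m * M ^ (7 * m) ≤ n) :
    ((2 + ((2 : ℝ) ^ κ - 1)) * (β * N ^ 7)) ^ m * ((D * m) ^ 3 * N ^ 2) ≤
      n * (2 : ℝ) ^ ((2 * ρ + ε) * t) := by
  have hp0 : 7 * m ≠ 0 := by omega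
  have hm0 : (1 : ℝ) ≤ m := by exact_mod_cast hm
  have hρ1 : ρ ≤ 1 := by nlinarith
  have hθ : (1 : ℝ) ≤ 2 ^ κ := Real.one_le_rpow one_le_two hκ.le
  have hn0 : 0 < n := by rw [hn]; positivity
  have h1 : M ^ (7 * m) ≤ (2 : ℝ) ^ (t ^ 2 + m * B) := by
    have a2 : β⁻¹ ^ m ≤ (2 : ℝ) ^ (m * B) := by
      rw [mul_comm, Real.rpow_mul_natCast zero_le_two]
      exact pow_le_pow_left₀ (by positivity) hB m
    have a3 : M ^ (7 * m) ≤ n * β⁻¹ ^ m := by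
      rw [inv_pow, ← div_eq_mul_inv, le_div_iff₀' (by positivity)]
      exact hfail
    rw [Real.rpow_add two_pos, ← hn]
    refine a3.trans ?_
    gcongr
  have h2 : M ≤ (2 : ℝ) ^ ((t ^ 2 + m * B) / (7 * m)) := by
    rw [← pow_le_pow_iff_left₀ hM (by positivity) hp0, ← Real.rpow_mul_natCast zero_le_two,
      Nat.cast_mul, Nat.cast_ofNat, div_mul_cancel₀ _ (by linarith)]
    exact h1
  have h3 : M ^ 2 ≤ (2 : ℝ) ^ (ρ * t + B) := by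
    refine (pow_le_pow_left₀ hM h2 2).trans ?_
    rw [← Real.rpow_mul_natCast zero_le_two]
    refine Real.rpow_le_rpow_of_exponent_le one_le_two ?_
    have := exponent_bound ρ t m B hρ hρ0 ht hB0 hm1 hm0
    push_cast
    linarith
  have h4 : (m : ℝ) ^ 3 ≤ (2 / κ) ^ 3 * (2 : ℝ) ^ (κ * m * 3) := by
    refine (pow_le_pow_left₀ (by positivity) (le_two_rpow κ m hκ (by positivity)) 3).trans ?_
    rw [mul_pow, ← Real.rpow_mul_natCast zero_le_two]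
    norm_num
  have h5 : (2 + ((2 : ℝ) ^ κ - 1)) ^ m ≤ (2 : ℝ) ^ ((1 + κ) * m) := by
    rw [Real.rpow_mul_natCast zero_le_two, Real.rpow_add two_pos, Real.rpow_one]
    exact pow_le_pow_left₀ (by linarith) (by linarith) m
  have h6 : N ^ (7 * m + 2) ≤ (2 : ℝ) ^ (κ * (9 * m)) * (M ^ (7 * m) * M ^ 2) := by
    refine (pow_le_pow_left₀ hN hNM _).trans ?_
    rw [mul_pow, pow_add M, ← Real.rpow_mul_natCast zero_le_two]
    refine mul_le_mul_of_nonneg_right (Real.rpow_le_rpow_of_exponent_le one_le_two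
      (mul_le_mul_of_nonneg_left ?_ hκ.le)) (by positivity)
    push_cast
    linarith
  have e : ((2 + ((2 : ℝ) ^ κ - 1)) * (β * N ^ 7)) ^ m * ((D * m) ^ 3 * N ^ 2) =
      (2 + ((2 : ℝ) ^ κ - 1)) ^ m * (β ^ m * N ^ (7 * m + 2)) * (D ^ 3 * m ^ 3) := by
    rw [mul_pow, mul_pow, ← pow_mul]
    ring
  have h7 : β ^ m * N ^ (7 * m + 2) ≤ (2 : ℝ) ^ (κ * (9 * m)) * (n * (2 : ℝ) ^ (ρ * t + B)) := by
    calc _ ≤ β ^ m * ((2 : ℝ) ^ (κ * (9 * m)) * (M ^ (7 * m) * M ^ 2)) := by gcongr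
      _ = (2 : ℝ) ^ (κ * (9 * m)) * ((β ^ m * M ^ (7 * m)) * M ^ 2) := by ring
      _ ≤ _ := by gcongr
  have h8 : C + ((1 + κ) * m + (κ * (9 * m) + ((ρ * t + B) + κ * m * 3))) ≤ (2 * ρ + ε) * t := by
    have a1 : (m : ℝ) ≤ t + 1 := by nlinarith
    have a2 : κ * m ≤ κ * t + 1 := by nlinarith
    have a3 : 26 * κ * t ≤ ε * t := by gcongr
    linarith
  rw [e]
  calc _ ≤ (2 : ℝ) ^ ((1 + κ) * m) * ((2 : ℝ) ^ (κ * (9 * m)) *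
        (n * (2 : ℝ) ^ (ρ * t + B))) * (D ^ 3 * ((2 / κ) ^ 3 * (2 : ℝ) ^ (κ * m * 3))) := by gcongr
    _ = n * (((2 / κ) ^ 3 * D ^ 3) * ((2 : ℝ) ^ ((1 + κ) * m) * ((2 : ℝ) ^ (κ * (9 * m)) *
        ((2 : ℝ) ^ (ρ * t + B) * (2 : ℝ) ^ (κ * m * 3))))) := by ring
    _ ≤ n * ((2 : ℝ) ^ C * ((2 : ℝ) ^ ((1 + κ) * m) * ((2 : ℝ) ^ (κ * (9 * m)) *
        ((2 : ℝ) ^ (ρ * t + B) * (2 : ℝ) ^ (κ * m * 3))))) := by gcongr
    _ ≤ _ := by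
      rw [← Real.rpow_add two_pos, ← Real.rpow_add two_pos, ← Real.rpow_add two_pos,
        ← Real.rpow_add two_pos]
      exact mul_le_mul_of_nonneg_left (Real.rpow_le_rpow_of_exponent_le one_le_two h8) hn0.le

theorem numeric (ε β D κ : ℝ) (hβ : 0 < β) (hD : 0 ≤ D) (hκ : 0 < κ) (hκ1 : κ ≤ 1)
    (hκε : 26 * κ ≤ ε) (N1 : ℕ)
    (hN1 : 1 ≤ ((2 : ℝ) ^ κ - 1) * N1) : ∃ n0 : ℕ, ∀ n : ℕ, n0 ≤ n → ∃ m N : ℕ, 1 ≤ m ∧ N1 ≤ N ∧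
      n ≤ (β * N ^ 7) ^ m ∧
      ((2 + ((2 : ℝ) ^ κ - 1)) * (β * N ^ 7)) ^ m * ((D * m) ^ 3 * N ^ 2) ≤
        n * (2 : ℝ) ^ ((2 * √(2 / 7) + ε) * √(Real.logb 2 n)) := by
  classical
  set ρ : ℝ := √(2 / 7) with hρdef
  have hρ : 7 * ρ ^ 2 = 2 := by rw [hρdef, Real.sq_sqrt (by norm_num)]; norm_num
  have hρ0 : 0 < ρ := Real.sqrt_pos.2 (by norm_num)
  have hρ1 : ρ ≤ 1 := by nlinarith
  clear_value ρ
  obtain ⟨B, hB0, hB⟩ := exists_two_rpow_ge β⁻¹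
  obtain ⟨Q, hQ0, hQ⟩ := exists_two_rpow_ge (β * (N1 : ℝ) ^ 7)
  obtain ⟨C, hC0, hC⟩ := exists_two_rpow_ge ((2 / κ) ^ 3 * D ^ 3)
  have hε : 0 < ε := by linarith
  set t0 : ℝ := 1 + 2 * Q + 2 * (C + 14 + B) / ε with ht0
  have ht00 : 0 < 2 * (C + 14 + B) / ε := by positivity
  obtain ⟨n0, hn0⟩ := exists_nat_ge ((2 : ℝ) ^ (t0 ^ 2))
  refine ⟨n0, fun n hn => ?_⟩
  have hn1 : (2 : ℝ) ^ (t0 ^ 2) ≤ n := hn0.trans (by exact_mod_cast hn)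
  have hnpos : (0 : ℝ) < n := lt_of_lt_of_le (by positivity) hn1
  have hl : t0 ^ 2 ≤ Real.logb 2 n := by
    rwa [Real.le_logb_iff_rpow_le one_lt_two hnpos]
  set t : ℝ := √(Real.logb 2 n) with ht
  have htt : t0 ≤ t := Real.le_sqrt_of_sq_le hl
  have hn2 : (n : ℝ) = (2 : ℝ) ^ (t ^ 2) := by
    rw [ht, Real.sq_sqrt ((sq_nonneg t0).trans hl), Real.rpow_logb two_pos (by norm_num) hnpos]
  clear_value t
  have ht1 : 1 ≤ t := by linarith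
  have htC : C + 14 + B ≤ ε * t / 2 := by
    have : 2 * (C + 14 + B) / ε ≤ t := by linarith
    rw [div_le_iff₀ hε] at this
    linarith
  obtain ⟨m, hm1, hm2⟩ : ∃ m : ℕ, ρ * t ≤ m ∧ (m : ℝ) ≤ ρ * t + 1 :=
    ⟨⌈ρ * t⌉₊, Nat.le_ceil _, (Nat.ceil_lt_add_one (by positivity)).le⟩
  have hm0 : 1 ≤ m := by
    have : (0 : ℝ) < m := lt_of_lt_of_le (by positivity) hm1
    exact_mod_cast this
  have hm3 : (m : ℝ) ≤ t + 1 := by nlinarith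
  have hex : ∃ N : ℕ, (n : ℝ) ≤ β ^ m * (N : ℝ) ^ (7 * m) := by
    obtain ⟨N, hN⟩ := exists_nat_ge ((n : ℝ) / β ^ m + 1)
    have h0 : 0 ≤ (n : ℝ) / β ^ m := by positivity
    refine ⟨N, ?_⟩
    rw [← div_le_iff₀' (by positivity)]
    exact le_trans (by linarith) (le_self_pow₀ (by linarith) (by omega))
  have hθ : (1 : ℝ) ≤ 2 ^ κ := Real.one_le_rpow one_le_two hκ.le
  have hbig : N1 < Nat.find hex := by
    by_contra h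
    have h1 : ((Nat.find hex : ℕ) : ℝ) ≤ N1 := by exact_mod_cast not_lt.1 h
    have h2 : β ^ m * ((Nat.find hex : ℕ) : ℝ) ^ (7 * m) ≤ β ^ m * (N1 : ℝ) ^ (7 * m) := by
      gcongr
    have h3 : β ^ m * (N1 : ℝ) ^ (7 * m) < n := by
      rw [pow_mul, ← mul_pow, hn2]
      refine (pow_le_pow_left₀ (by positivity) hQ m).trans_lt ?_
      rw [← Real.rpow_mul_natCast zero_le_two]
      refine Real.rpow_lt_rpow_of_exponent_lt one_lt_two ?_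
      have : Q * m ≤ Q * (2 * t) := mul_le_mul_of_nonneg_left (by linarith) hQ0
      nlinarith
    have h4 := Nat.find_spec hex
    linarith
  obtain ⟨M, hM⟩ : ∃ M : ℕ, Nat.find hex = M + 1 := ⟨Nat.find hex - 1, by omega⟩
  have hfail : β ^ m * (M : ℝ) ^ (7 * m) ≤ n :=
    (not_le.1 (Nat.find_min hex (by omega : M < Nat.find hex))).le
  have hspec := Nat.find_spec hex
  refine ⟨m, Nat.find hex, hm0, hbig.le, ?_, ?_⟩
  · rw [mul_pow, ← pow_mul]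
    exact hspec
  have hM1 : (N1 : ℝ) ≤ M := by exact_mod_cast (by omega : N1 ≤ M)
  have hNM : ((Nat.find hex : ℕ) : ℝ) ≤ 2 ^ κ * M := by
    rw [hM]; push_cast
    nlinarith
  exact final_est β D κ ρ t B C ε n M _ m hβ hD hκ hκ1 hκε hρ hρ0 ht1 hB0 hB hC htC hn2
    (Nat.cast_nonneg _) (Nat.cast_nonneg _) hNM hm0 hm1 hm2 hfail

end Pool.Agent.Lib.MP_92084f_co
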