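import Pool.Agent.Lib.MP_92084f_co.Tensor
import Pool.Agent.Lib.MP_92084f_co.Block
import Pool.Agent.Lib.MP_92084f_co.Numeric

set_option autoImplicit false

namespace Pool.Agent.Lib.MP_92084f_co

theorem bip_eventually (ε : ℝ) (hε : 0 < ε) : ∃ n0 : ℕ, ∀ n : ℕ, n0 ≤ n → ∃ k : ℕ,
    (k : ℝ) ≤ n * (2 : ℝ) ^ ((2 * √(2 / 7) + ε) * √(Real.logb 2 n)) ∧ BipN n k := by
  obtain ⟨κ, hκ, hκ1, hκε⟩ : ∃ κ : ℝ, 0 < κ ∧ κ ≤ 1 ∧ 26 * κ ≤ ε :=
    ⟨min 1 (ε / 26), lt_min one_pos (by positivity), min_le_left _ _, by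
      have := min_le_right 1 (ε / 26)
      linarith⟩
  have hθ : 0 < (2 : ℝ) ^ κ - 1 := sub_pos.2 (Real.one_lt_rpow one_lt_two hκ)
  have hθ1 : (2 : ℝ) ^ κ - 1 ≤ 1 := by
    have := Real.rpow_le_rpow_of_exponent_le one_le_two hκ1
    rw [Real.rpow_one] at this
    linarith
  obtain ⟨β, γ, γ', hβ, hγ, hγ1, hγ', hγ1', N0, hN0⟩ := block _ hθ hθ1
  obtain ⟨N2, hN2⟩ := exists_nat_ge (1 / ((2 : ℝ) ^ κ - 1))
  obtain ⟨n0, hn0⟩ := numeric ε β (41 / (γ * γ')) κ hβ (by positivity) hκ hκ1 hκε (N0 + N2 + 1) (by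
    rw [div_le_iff₀' hθ] at hN2
    refine hN2.trans (mul_le_mul_of_nonneg_left ?_ hθ.le)
    push_cast
    linarith [Nat.cast_nonneg (α := ℝ) N0])
  refine ⟨n0, fun n hn => ?_⟩
  obtain ⟨m, N, hm, hN, h1, h2⟩ := hn0 n hn
  obtain ⟨U, K, c, hU, hK, hP⟩ := hN0 N (by omega)
  have hN1 : (1 : ℝ) ≤ N := by exact_mod_cast (by omega : 1 ≤ N)
  have hm1 : (1 : ℝ) ≤ m := by exact_mod_cast hm
  have key : ∀ y : ℝ, 1 ≤ y → ((⌊40 * y⌋₊ + 1 : ℕ) : ℝ) ≤ 41 * y ∧ 40 * y < (⌊40 * y⌋₊ + 1 : ℕ) :=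
    fun y hy => by
      have a1 : (⌊40 * y⌋₊ : ℝ) ≤ 40 * y := Nat.floor_le (by positivity)
      push_cast
      exact ⟨by linarith, Nat.lt_floor_add_one _⟩
  obtain ⟨r1, r2⟩ := key (m / γ) (by rw [le_div_iff₀ hγ]; linarith)
  obtain ⟨r3, r4⟩ := key (m * N ^ 2 / γ') (by
    rw [le_div_iff₀ hγ']
    linarith [one_le_mul_of_one_le_of_one_le hm1 (one_le_pow₀ (n := 2) hN1)])
  generalize ⌊40 * (m / γ)⌋₊ + 1 = R at r1 r2
  generalize ⌊40 * (m * (N : ℝ) ^ 2 / γ')⌋₊ + 1 = R' at r3 r4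
  have r5 : (R : ℝ) ≤ 41 / (γ * γ') * m := by
    refine r1.trans ?_
    have e : 41 / (γ * γ') * m = 41 * (m / γ) / γ' := by field_simp
    rw [e, le_div_iff₀ hγ']
    exact mul_le_of_le_one_right (by positivity) hγ1'
  have r6 : (R' : ℝ) ≤ 41 / (γ * γ') * m * N ^ 2 := by
    refine r3.trans ?_
    have e : 41 / (γ * γ') * m * N ^ 2 = 41 * (m * N ^ 2 / γ') / γ := by field_simp
    rw [e, le_div_iff₀ hγ]
    exact mul_le_of_le_one_right (by positivity) hγ1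
  refine ⟨Fintype.card ↥K ^ m * (R * (R * R')), le_trans ?_ h2,
    tensor c _ _ hP hγ (by positivity) m n _ R R' ?_ ?_ ?_ le_rfl⟩
  · push_cast
    rw [Fintype.card_coe]
    have e : (41 / (γ * γ') * m) ^ 3 * N ^ 2 =
        41 / (γ * γ') * m * (41 / (γ * γ') * m * (41 / (γ * γ') * m * N ^ 2)) := by ring
    rw [e]
    gcongr
  · rw [Fintype.card_coe]
    exact_mod_cast h1.trans (pow_le_pow_left₀ (by positivity) hU m)
  · refine lt_of_eq_of_lt ?_ r2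
    field_simp
    ring
  · refine lt_of_eq_of_lt ?_ r4
    field_simp
    ring

theorem BipN.mono {n k k' : ℕ} (h : BipN n k) (hk : k ≤ k') : BipN n k' := by
  obtain ⟨c, hc⟩ := h
  exact BipN.of_types c hc n k' (by simp) (by simpa using hk)

theorem bipN_sq (n : ℕ) : BipN n (n * n) :=
  BipN.of_types (fun u v : Fin n => (u, v))
    ⟨fun _ _ _ _ _ h h1 _ => h (Prod.mk.inj h1).2, fun _ _ _ _ _ h h1 _ => h (Prod.mk.inj h1).1⟩
    n _ (by simp) (by simp)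

/-- A star edge colouring of the complete graph on `α`. -/
def Star {α κ : Type*} (c : α → α → κ) : Prop :=
  (∀ a b, c a b = c b a) ∧ (∀ a b d, a ≠ b → a ≠ d → b ≠ d → c a b ≠ c a d) ∧
  ∀ v0 v1 v2 v3 v4, v0 ≠ v1 → v0 ≠ v2 → v0 ≠ v3 → v1 ≠ v2 → v1 ≠ v3 → v2 ≠ v3 →
    v4 ≠ v1 → v4 ≠ v2 → v4 ≠ v3 → ¬ (c v0 v1 = c v2 v3 ∧ c v1 v2 = c v3 v4)

/-- The complete graph on `n` vertices has a star edge colouring with `k` colours. -/
def StarN (n k : ℕ) : Prop := ∃ c : Fin n → Fin n → Fin k, Star c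

theorem StarN.of_types {α κ : Type*} [Fintype α] [Fintype κ] (c : α → α → κ) (hc : Star c)
    (n k : ℕ) (hn : n ≤ Fintype.card α) (hk : Fintype.card κ ≤ k) : StarN n k := by
  obtain ⟨e⟩ := Function.Embedding.nonempty_of_card_le (α := Fin n) (β := α) (by simpa using hn)
  obtain ⟨f⟩ := Function.Embedding.nonempty_of_card_le (α := κ) (β := Fin k) (by simpa using hk)
  have he := e.injective
  refine ⟨fun u v => f (c (e u) (e v)), fun a b => congrArg f (hc.1 _ _), fun a b d h1 h2 h3 h =>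
    hc.2.1 _ _ _ (he.ne h1) (he.ne h2) (he.ne h3) (f.injective h),
    fun v0 v1 v2 v3 v4 h1 h2 h3 h4 h5 h6 h7 h8 h9 h => ?_⟩
  exact hc.2.2 _ _ _ _ _ (he.ne h1) (he.ne h2) (he.ne h3) (he.ne h4) (he.ne h5) (he.ne h6)
    (he.ne h7) (he.ne h8) (he.ne h9) ⟨f.injective h.1, f.injective h.2⟩

/-- Two copies of a complete graph with disjoint palettes, joined by a third palette. -/
def glue {α κ κ' : Type*} (b : α → α → κ) (c : α → α → κ') : α ⊕ α → α ⊕ α → κ ⊕ κ' ⊕ κ'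
  | .inl x, .inl y => .inr (.inl (c x y))
  | .inr x, .inr y => .inr (.inr (c x y))
  | .inl x, .inr y => .inl (b x y)
  | .inr x, .inl y => .inl (b y x)

theorem star_glue {α κ κ' : Type*} (b : α → α → κ) (c : α → α → κ') (hb : Bip b) (hc : Star c) :
    Star (glue b c) := by
  refine ⟨?_, ?_, ?_⟩
  · rintro (x | x) (y | y) <;> simp [glue, hc.1 x y]
  · rintro (x | x) (y | y) (z | z) h1 h2 h3 <;>
      simp only [glue, ne_eq, Sum.inl.injEq, Sum.inr.injEq, reduceCtorEq, not_false_eq_true]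
        at h1 h2 h3 ⊢
    · exact hc.2.1 _ _ _ h1 h2 h3
    · exact fun h => hb.1 x x x y z h3 h h.symm
    · exact fun h => hb.2 x x x y z h3 h h.symm
    · exact hc.2.1 _ _ _ h1 h2 h3
  · rintro (v0 | v0) (v1 | v1) (v2 | v2) (v3 | v3) (v4 | v4) h1 h2 h3 h4 h5 h6 h7 h8 h9 <;>
      simp only [glue, ne_eq, Sum.inl.injEq, Sum.inr.injEq, reduceCtorEq, not_false_eq_true,
        false_and, and_false] at h1 h2 h3 h4 h5 h6 h7 h8 h9 ⊢
    · exact hc.2.2 _ _ _ _ _ h1 h2 h3 h4 h5 h6 h7 h8 h9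
    · exact fun h => hb.1 v2 v4 v0 v3 v1 (Ne.symm h5) h.1.symm h.2
    · exact fun h => hb.2 v2 v4 v0 v3 v1 (Ne.symm h5) h.1.symm h.2
    · exact hc.2.2 _ _ _ _ _ h1 h2 h3 h4 h5 h6 h7 h8 h9

theorem starN_pow (G J : ℕ) (h : ∀ s, s ≤ 2 ^ J → BipN s (s * G)) :
    ∀ j, j ≤ J → StarN (2 ^ j) ((j * G + 1) * 2 ^ j) := by
  intro j
  induction j with
  | zero =>
    intro _
    exact StarN.of_types (fun _ _ : Unit => ()) ⟨fun _ _ => rfl, fun _ _ _ h => (h rfl).elim,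
      fun _ _ _ _ _ h => (h rfl).elim⟩ _ _ (by simp) (by simp)
  | succ j ih =>
    intro hj
    obtain ⟨c, hc⟩ := ih (by omega)
    obtain ⟨b, hb⟩ := h (2 ^ j) (Nat.pow_le_pow_right two_pos (by omega))
    refine StarN.of_types _ (star_glue b c hb hc) _ _ (by simp [pow_succ]; omega) ?_
    simp only [Fintype.card_sum, Fintype.card_fin, pow_succ]
    nlinarith [Nat.zero_le (2 ^ j * G)]

theorem star_eventually (ε : ℝ) (hε : 0 < ε) : ∃ n0 : ℕ, ∀ n : ℕ, n0 ≤ n → ∃ k : ℕ,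
    (k : ℝ) ≤ n * (2 : ℝ) ^ ((2 * √(2 / 7) + ε) * √(Real.logb 2 n)) ∧ StarN n k := by
  obtain ⟨n1, hn1⟩ := bip_eventually (ε / 2) (by positivity)
  have hρ0 : 0 ≤ √(2 / 7) := Real.sqrt_nonneg _
  generalize √(2 / 7) = ρ at *
  obtain ⟨C, hC0, hC⟩ := exists_two_rpow_ge
    (6 * (2 / (ε / 8)) ^ 2 * (n1 + 3) * (2 : ℝ) ^ (2 * ρ + ε / 2))
  obtain ⟨n0, hn0⟩ := exists_nat_ge ((2 : ℝ) ^ ((1 + 4 * C / ε) ^ 2))
  refine ⟨n0, fun n hn => ?_⟩
  have a1 : (2 : ℝ) ^ ((1 + 4 * C / ε) ^ 2) ≤ n := hn0.trans (by exact_mod_cast hn)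
  have hnpos : (0 : ℝ) < n := lt_of_lt_of_le (by positivity) a1
  have hl : (1 + 4 * C / ε) ^ 2 ≤ Real.logb 2 n := by
    rwa [Real.le_logb_iff_rpow_le one_lt_two hnpos]
  have a0 : 0 ≤ 4 * C / ε := by positivity
  set t : ℝ := √(Real.logb 2 n) with ht
  have htt : 1 + 4 * C / ε ≤ t := Real.le_sqrt_of_sq_le hl
  have hlt : Real.logb 2 n = t ^ 2 := by rw [ht, Real.sq_sqrt ((sq_nonneg _).trans hl)]
  have hn2 : (n : ℝ) = (2 : ℝ) ^ (t ^ 2) := by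
    rw [← hlt, Real.rpow_logb two_pos (by norm_num) hnpos]
  clear_value t
  have ht1 : 1 ≤ t := by linarith
  have htC : C ≤ ε / 4 * t := by
    have : 4 * C / ε ≤ t := by linarith
    rw [div_le_iff₀ hε] at this
    linarith
  have hn3 : 1 < n := by
    have : (1 : ℝ) < n := by rw [hn2]; exact Real.one_lt_rpow one_lt_two (by positivity)
    exact_mod_cast this
  set J := Nat.clog 2 n with hJ
  have hJ1 : n ≤ 2 ^ J := Nat.le_pow_clog one_lt_two n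
  have hJ2 : 2 ^ J ≤ 2 * n := by
    have b1 := Nat.pow_pred_clog_lt_self one_lt_two hn3
    have b2 : 0 < J := Nat.clog_pos one_lt_two hn3
    obtain ⟨i, hi⟩ : ∃ i, J = i + 1 := ⟨J - 1, by omega⟩
    rw [← hJ, hi, Nat.pred_succ] at b1
    rw [hi, pow_succ]
    omega
  clear_value J
  have hJ3 : (2 : ℝ) ^ J ≤ 2 * n := by exact_mod_cast hJ2
  have hJ4 : (J : ℝ) ≤ t ^ 2 + 1 := by
    rw [← Real.rpow_le_rpow_left_iff one_lt_two, Real.rpow_natCast, Real.rpow_add two_pos,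
      Real.rpow_one, ← hn2]
    linarith
  set F : ℝ := (2 : ℝ) ^ ((2 * ρ + ε / 2) * (t + 1)) with hF
  have hF1 : 1 ≤ F := Real.one_le_rpow one_le_two (by positivity)
  have hG : ∀ s, s ≤ 2 ^ J → BipN s (s * (n1 + 1 + ⌈F⌉₊)) := by
    intro s hs
    by_cases h : s ≤ n1
    · exact (bipN_sq s).mono (Nat.mul_le_mul_left _ (by omega))
    obtain ⟨k, hk, hb⟩ := hn1 s (by omega)
    refine hb.mono ?_
    have hs0 : (0 : ℝ) < s := by exact_mod_cast (by omega : 0 < s)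
    have b1 : Real.logb 2 s ≤ (t + 1) ^ 2 := by
      rw [Real.logb_le_iff_le_rpow one_lt_two hs0]
      have b2 : (s : ℝ) ≤ (2 : ℝ) ^ (J : ℝ) := by rw [Real.rpow_natCast]; exact_mod_cast hs
      exact b2.trans (Real.rpow_le_rpow_of_exponent_le one_le_two (by nlinarith))
    have b3 : √(Real.logb 2 s) ≤ t + 1 := Real.sqrt_le_iff.2 ⟨by linarith, b1⟩
    have b4 : (2 : ℝ) ^ ((2 * ρ + ε / 2) * √(Real.logb 2 s)) ≤ F :=
      Real.rpow_le_rpow_of_exponent_le one_le_two (mul_le_mul_of_nonneg_left b3 (by positivity))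
    have b5 : (k : ℝ) ≤ ((s * (n1 + 1 + ⌈F⌉₊) : ℕ) : ℝ) := by
      push_cast
      refine hk.trans (mul_le_mul_of_nonneg_left ?_ hs0.le)
      linarith [Nat.le_ceil F, Nat.cast_nonneg (α := ℝ) n1]
    exact_mod_cast b5
  obtain ⟨c, hc⟩ := starN_pow _ J hG J le_rfl
  refine ⟨_, ?_, StarN.of_types c hc n _ (by simpa using hJ1) (Fintype.card_fin _).le⟩
  have c1 : ((n1 + 1 + ⌈F⌉₊ : ℕ) : ℝ) ≤ (n1 + 3) * F := by
    have := Nat.ceil_lt_add_one (zero_le_one.trans hF1)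
    have h' := mul_le_mul_of_nonneg_left hF1 (Nat.cast_nonneg (α := ℝ) n1)
    push_cast
    linarith
  have c2 : t ^ 2 ≤ (2 / (ε / 8)) ^ 2 * (2 : ℝ) ^ (ε / 4 * t) := by
    refine (pow_le_pow_left₀ (by linarith) (le_two_rpow (ε / 8) t (by positivity) (by linarith))
      2).trans ?_
    rw [mul_pow, ← Real.rpow_mul_natCast zero_le_two]
    refine le_of_eq ?_
    congr 2
    push_cast
    ring
  have c3 : 1 ≤ ((n1 : ℝ) + 3) * F :=
    one_le_mul_of_one_le_of_one_le (by linarith [Nat.cast_nonneg (α := ℝ) n1]) hF1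
  have c4 : (J : ℝ) * ((n1 + 1 + ⌈F⌉₊ : ℕ) : ℝ) + 1 ≤ 3 * t ^ 2 * ((n1 + 3) * F) := by
    have d1 : (J : ℝ) * ((n1 + 1 + ⌈F⌉₊ : ℕ) : ℝ) ≤ (t ^ 2 + 1) * ((n1 + 3) * F) := by gcongr
    have d2 : 1 ≤ t ^ 2 := one_le_pow₀ ht1
    nlinarith
  have c5 : F = (2 : ℝ) ^ (2 * ρ + ε / 2) * (2 : ℝ) ^ ((2 * ρ + ε / 2) * t) := by
    rw [hF, ← Real.rpow_add two_pos]
    congr 1
    ring
  rw [Nat.cast_mul, Nat.cast_add, Nat.cast_mul, Nat.cast_one, Nat.cast_pow, Nat.cast_ofNat]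
  calc _ ≤ (3 * ((2 / (ε / 8)) ^ 2 * (2 : ℝ) ^ (ε / 4 * t)) * ((n1 + 3) * F)) * (2 * n) := by
        refine mul_le_mul (c4.trans ?_) hJ3 (by positivity) (by positivity)
        gcongr
    _ = n * ((6 * (2 / (ε / 8)) ^ 2 * (n1 + 3) * (2 : ℝ) ^ (2 * ρ + ε / 2)) *
        ((2 : ℝ) ^ (ε / 4 * t) * (2 : ℝ) ^ ((2 * ρ + ε / 2) * t))) := by rw [c5]; ring
    _ ≤ n * ((2 : ℝ) ^ C * ((2 : ℝ) ^ (ε / 4 * t) * (2 : ℝ) ^ ((2 * ρ + ε / 2) * t))) := by gcongr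
    _ ≤ _ := by
      rw [← Real.rpow_add two_pos, ← Real.rpow_add two_pos]
      exact mul_le_mul_of_nonneg_left
        (Real.rpow_le_rpow_of_exponent_le one_le_two (by linarith)) hnpos.le

end Pool.Agent.Lib.MP_92084f_co
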