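import Pool.Agent.Lib.MP_92084f_co.Chart
import Pool.Agent.Lib.MP_92084f_co.Core

set_option autoImplicit false

open MeasureTheory
open scoped ENNReal RealInnerProductSpace

namespace Pool.Agent.Lib.MP_92084f_co

theorem flip_norm (x y : E) : ‖omul.flip x y‖ = ‖x‖ * ‖y‖ := by
  rw [LinearMap.flip_apply, omul_norm, mul_comm]

/-- The index of the large cell that contains a cell. -/
def meso (L : ℕ) (t : ℤ) (c : Fin 8 → ℤ) : Fin 8 → ℤ := fun j => (c j + t) / L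

theorem meso_close (N : ℕ) (hN : 0 < N) (L : ℕ) (hL : 0 < L) (t : ℤ) {c c' : Fin 8 → ℤ}
    (hc : c ∈ cells N) (hc' : c' ∈ cells N) (h : meso L t c = meso L t c') :
    ‖rep N c - rep N c'‖ ≤ 3 * (L / N) := by
  refine close_of_cell N hN (norm_rep _ _) (norm_rep _ _) L (Nat.cast_nonneg L) fun j => ?_
  rw [cell_rep N hc, cell_rep N hc']
  have h1 : (c j + t) / L = (c' j + t) / L := congrFun h j
  have hL' : (0 : ℤ) < L := by exact_mod_cast hL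
  have a1 := Int.emod_add_mul_ediv (c j + t) L
  have a2 := Int.emod_add_mul_ediv (c' j + t) L
  have a3 := Int.emod_nonneg (c j + t) hL'.ne'
  have a4 := Int.emod_nonneg (c' j + t) hL'.ne'
  have a5 := Int.emod_lt_of_pos (c j + t) hL'
  have a6 := Int.emod_lt_of_pos (c' j + t) hL'
  rw [h1] at a1
  have : |c j - c' j| + 1 ≤ (L : ℤ) := by
    have : |c j - c' j| < (L : ℤ) := abs_lt.2 ⟨by linarith, by linarith⟩
    linarith
  exact_mod_cast this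

theorem meso_far (N : ℕ) (hN : 0 < N) (L g : ℕ) (hL : 0 < L) (t : ℤ) {c c' : Fin 8 → ℤ}
    (hc : c ∈ cells N) (hc' : c' ∈ cells N) (hg : ∀ j, (g : ℤ) ≤ (c j + t) % L)
    (hg' : ∀ j, (g : ℤ) ≤ (c' j + t) % L) (h : meso L t c ≠ meso L t c') :
    (g : ℝ) / N ≤ ‖rep N c - rep N c'‖ := by
  obtain ⟨j, hj⟩ := Function.ne_iff.1 h
  have hL' : (0 : ℤ) < L := by exact_mod_cast hL
  have a1 := Int.emod_add_mul_ediv (c j + t) L
  have a2 := Int.emod_add_mul_ediv (c' j + t) L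
  have a5 := Int.emod_lt_of_pos (c j + t) hL'
  have a6 := Int.emod_lt_of_pos (c' j + t) hL'
  have b1 := hg j
  have b2 := hg' j
  rcases lt_or_gt_of_ne hj with h1 | h1
  · rw [norm_sub_rev]
    refine far_of_cell N hN (norm_rep _ _) (norm_rep _ _) g j ?_
    rw [cell_rep N hc, cell_rep N hc']
    have h2 : (c j + t) / L + 1 ≤ (c' j + t) / L := h1
    have : (g : ℤ) + 1 ≤ c' j - c j := by nlinarith
    exact_mod_cast this
  · refine far_of_cell N hN (norm_rep _ _) (norm_rep _ _) g j ?_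
    rw [cell_rep N hc, cell_rep N hc']
    have h2 : (c' j + t) / L + 1 ≤ (c j + t) / L := h1
    have : (g : ℤ) + 1 ≤ c j - c' j := by nlinarith
    exact_mod_cast this

theorem chart_side (m : E →ₗ[ℝ] E →ₗ[ℝ] E) (hm : ∀ x y, ‖m x y‖ = ‖x‖ * ‖y‖)
    (N : ℕ) (hN : 0 < N) (δ : ℝ) (hδ : 0 < δ) (S : Finset (Fin 8 → ℤ)) (n1 : (Fin 8 → ℤ) → ℕ)
    (η κ : ℝ) (hη : η + 3 * (1 / N) ≤ 1 / 2)
    (hκ : 3 * (1 / N) + 3 * δ + (4 * (η + 3 * (1 / N))) ^ 2 ≤ κ) (p q : E) (hp : ‖p‖ = 1)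
    (hq : ‖q‖ = 1) (hS : ∀ c ∈ S, ‖rep N c - q‖ ≤ η)
    (h1 : ∀ c ∈ S, (n1 c : ℝ≥0∞) * (ENNReal.ofReal (1 ^ 8 * δ ^ 7) * v0) ≤ mass N c) :
    ∃ σ : (Fin 8 → ℤ) × ℕ → Fin 7 → ℤ, Set.InjOn σ ↑(items S n1) ∧ ∀ u ∈ items S n1,
      ‖m p (rep N u.1) - (m p q + omul (m p q) (qv δ (σ u)))‖ ≤ κ := by
  have ha : ‖m p q‖ = 1 := by rw [hm, hp, hq, mul_one]
  obtain ⟨σ, h2, h3⟩ := chart_to N hN δ hδ
    ((isoL omul omul_norm _ ha).trans (isoL m hm p hp).symm) S n1 η hη (fun c hc => by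
      have : ((isoL omul omul_norm _ ha).trans (isoL m hm p hp).symm) e0 = q := by
        rw [LinearIsometryEquiv.trans_apply, LinearIsometryEquiv.symm_apply_eq, isoL_apply,
          isoL_apply, omul_e0]
      rw [this]
      exact hS c hc) h1
  refine ⟨σ, h2, fun u hu => le_trans (le_of_eq ?_) ((h3 u hu).trans hκ)⟩
  rw [← (isoL m hm p hp).norm_map (rep N u.1 - _), map_sub, LinearIsometryEquiv.trans_apply,
    LinearIsometryEquiv.apply_symm_apply, isoL_apply, isoL_apply, map_add, omul_e0]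

theorem small_of_close (m : E →ₗ[ℝ] E →ₗ[ℝ] E) (hm : ∀ x y, ‖m x y‖ = ‖x‖ * ‖y‖) (p q z k : E)
    (hp : ‖p‖ = 1) (hq : ‖q‖ = 1) (η κ : ℝ) (hκη : κ ≤ η) (h1 : ‖z - q‖ ≤ η)
    (h2 : ‖m p z - (m p q + omul (m p q) k)‖ ≤ κ) : ‖k‖ ≤ 2 * η := by
  have e : omul (m p q) k = m p (z - q) - (m p z - (m p q + omul (m p q) k)) := by
    rw [map_sub]; abel
  have h3 := norm_sub_le (m p (z - q)) (m p z - (m p q + omul (m p q) k))
  rw [← e, omul_norm, hm, hm, hp, hq] at h3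
  linarith

end Pool.Agent.Lib.MP_92084f_co
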