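import Pool.Agent.Lib.MP_92084f_co.Geo

set_option autoImplicit false

open MeasureTheory
open scoped ENNReal RealInnerProductSpace

namespace Pool.Agent.Lib.MP_92084f_co

/-- A colouring of the complete bipartite graph with three bounded potentials. Along a
two-coloured path with four edges either the coarse potential of the side of the centre grows by
`γ`, or it does not drop and the fine potential grows by `γ'`. -/
def Pot {U K : Type*} (c : U → U → K) (γ γ' : ℝ) : Prop :=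
  ∃ φ ψ χ : U → U → ℝ, (∀ u v, |φ u v| ≤ 10) ∧ (∀ u v, |ψ u v| ≤ 10) ∧ (∀ u v, |χ u v| ≤ 10) ∧
    (∀ u u' u'' v v', c u v = c u'' v' → c u v' = c u' v →
      (0 ≤ φ u'' v' - φ u v + φ u' v - φ u v' ∧ 0 ≤ χ u'' v' - χ u v + χ u' v - χ u v' ∧
        (v ≠ v' → γ' ≤ χ u'' v' - χ u v + χ u' v - χ u v')) ∨
      γ ≤ φ u'' v' - φ u v + φ u' v - φ u v') ∧
    (∀ v v' v'' u u', c u v = c u' v'' → c u' v = c u v' →
      (0 ≤ ψ u' v'' - ψ u v + ψ u v' - ψ u' v ∧ 0 ≤ χ u' v'' - χ u v + χ u v' - χ u' v ∧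
        (u ≠ u' → γ' ≤ χ u' v'' - χ u v + χ u v' - χ u' v)) ∨
      γ ≤ ψ u' v'' - ψ u v + ψ u v' - ψ u' v)

theorem geo_block (N : ℕ) (hN : 0 < N) (δ ε h η w γ : ℝ) (g L : ℕ) (t : ℤ)
    (S : Finset (Fin 8 → ℤ))
    (n1 n2 : (Fin 8 → ℤ) → ℕ) (hδ : 0 < δ) (hδs : δ ≤ 1 / N) (hε : 0 < ε) (hε1 : ε ≤ 1)
    (h0 : 0 < h) (hh : h * (1 + 25 * η ^ 2) ≤ 1) (hL : 0 < L) (hLη : 3 * ((L : ℝ) / N) ≤ η)
    (hwg : w ≤ g / N) (hsη : 1 / (N : ℝ) ≤ η ^ 2) (hη1 : η ≤ 1 / 70)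
    (hw1 : 32 * (70 * η ^ 2) ≤ ε * w) (hw2 : 20 * η * (70 * η ^ 2) + γ ≤ ε * w ^ 2 / 8)
    (hS : ∀ c ∈ S, c ∈ cells N ∧ ε ≤ rep N c 0 ∧ ∀ j, (g : ℤ) ≤ (c j + t) % L)
    (h1 : ∀ c ∈ S, (n1 c : ℝ≥0∞) * (ENNReal.ofReal (1 ^ 8 * δ ^ 7) * v0) ≤ mass N c)
    (h2 : ∀ c ∈ cells N, mass N c ≤ (n2 c : ℝ≥0∞) * (ENNReal.ofReal (h ^ 8 * δ ^ 7) * v0))
    (hne : Nonempty ↥(items S n1)) :
    ∃ c : ↥(items S n1) → ↥(items S n1) → ↥(items (cells N) n2), Pot c γ (δ ^ 2) := by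
  classical
  have hN' : (0 : ℝ) < N := by exact_mod_cast hN
  have hη0 : 0 ≤ η := le_trans (by positivity) hLη
  have hs0 : 0 < 1 / (N : ℝ) := by positivity
  have hκη : 70 * η ^ 2 ≤ η := by nlinarith
  have hq2 : η + 3 * (1 / (N : ℝ)) ≤ 1 / 2 := by linarith
  have hq3 : (4 * η + 3 * δ) ^ 2 ≤ 25 * η ^ 2 := by
    have : (4 * η + 3 * δ) ^ 2 ≤ (5 * η) ^ 2 := by gcongr; linarith
    linarith
  have hκ : 3 * (1 / (N : ℝ)) + 3 * δ + (4 * (η + 3 * (1 / (N : ℝ)))) ^ 2 ≤ 70 * η ^ 2 := by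
    have : (4 * (η + 3 * (1 / (N : ℝ)))) ^ 2 ≤ (8 * η) ^ 2 :=
      pow_le_pow_left₀ (by positivity) (by linarith) 2
    linarith
  let U := ↥(items S n1)
  let x : U → E := fun u => rep N u.1.1
  let μ : U → Fin 8 → ℤ := fun u => meso L t u.1.1
  let r : (Fin 8 → ℤ) → U := Function.invFun μ
  let u0 : (Fin 8 → ℤ) → E := fun P => x (r P)
  let SP : (Fin 8 → ℤ) → Finset (Fin 8 → ℤ) := fun P => S.filter fun c => meso L t c = μ (r P)
  have hmem : ∀ u : U, u.1.1 ∈ S := fun u => (mem_items.1 u.2).1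
  have hr : ∀ u : U, μ (r (μ u)) = μ u := fun u => Function.invFun_eq ⟨u, rfl⟩
  have hSP : ∀ u : U, u.1 ∈ items (SP (μ u)) n1 := fun u =>
    mem_items.2 ⟨Finset.mem_filter.2 ⟨hmem u, (hr u).symm⟩, (mem_items.1 u.2).2⟩
  have hclose : ∀ P, ∀ c ∈ SP P, ‖rep N c - u0 P‖ ≤ η := fun P c hc => by
    exact (meso_close N hN L hL t (hS c (Finset.mem_filter.1 hc).1).1
      (hS _ (hmem (r P))).1 (Finset.mem_filter.1 hc).2).trans hLη
  have hu0 : ∀ P, ‖u0 P‖ = 1 := fun P => norm_rep _ _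
  choose σ1 i1 a1 using fun P Q => chart_side omul.flip flip_norm N hN δ hδ (SP P) n1 η (70 * η ^ 2)
    hq2 hκ (u0 Q) (u0 P) (hu0 Q) (hu0 P) (hclose P)
    fun c hc => h1 c (Finset.mem_filter.1 hc).1
  choose σ2 i2 a2 using fun P Q => chart_side omul omul_norm N hN δ hδ (SP Q) n1 η (70 * η ^ 2)
    hq2 hκ (u0 P) (u0 Q) (hu0 P) (hu0 Q) (hclose Q)
    fun c hc => h1 c (Finset.mem_filter.1 hc).1
  have ha0 : ∀ P Q, ‖omul (u0 P) (u0 Q)‖ = 1 := fun P Q => by rw [omul_norm, hu0, hu0, mul_one]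
  choose ι i3 a3 using fun P Q => chart_from N hN δ hδ (isoL omul omul_norm _ (ha0 P Q)) h h0
    (4 * η) (le_trans (by gcongr) hh) n2 h2
  have hdx : ∀ u : U, ‖x u - u0 (μ u)‖ ≤ η := fun u => hclose _ _ (mem_items.1 (hSP u)).1
  have b1 : ∀ u v : U, ‖qv δ (σ1 (μ u) (μ v) u.1)‖ ≤ 2 * η := fun u v =>
    small_of_close omul.flip flip_norm _ _ _ _ (hu0 _) (hu0 _) η _ hκη (hdx u)
      (a1 (μ u) (μ v) u.1 (hSP u))
  have b2 : ∀ u v : U, ‖qv δ (σ2 (μ u) (μ v) v.1)‖ ≤ 2 * η := fun u v =>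
    small_of_close omul omul_norm _ _ _ _ (hu0 _) (hu0 _) η _ hκη (hdx v)
      (a2 (μ u) (μ v) v.1 (hSP v))
  have hsum : ∀ u v : U, ‖qv δ (σ1 (μ u) (μ v) u.1 + σ2 (μ u) (μ v) v.1)‖ ≤ 4 * η := fun u v => by
    rw [qv_add]
    exact (norm_add_le _ _).trans (by linarith [b1 u v, b2 u v])
  let c : U → U → ↥(items (cells N) n2) := fun u v =>
    ⟨ι (μ u) (μ v) (σ1 (μ u) (μ v) u.1 + σ2 (μ u) (μ v) v.1), (a3 _ _ _ (hsum u v)).1⟩
  let A : (Fin 8 → ℤ) → (Fin 8 → ℤ) → U → E := fun P Q u =>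
    omul (omul (u0 P) (u0 Q)) (qv δ (σ1 P Q u.1))
  let B : (Fin 8 → ℤ) → (Fin 8 → ℤ) → U → E := fun P Q v =>
    omul (omul (u0 P) (u0 Q)) (qv δ (σ2 P Q v.1))
  let pos : ↥(items (cells N) n2) → E := fun a => rep N a.1.1
  have hx : ∀ u, ‖x u‖ = 1 := fun u => norm_rep _ _
  have hxe : ∀ u, ε ≤ x u 0 := fun u => (hS _ (hmem u)).2.1
  have hsx : ∀ u u', μ u ≠ μ u' → w ≤ ‖x u - x u'‖ := fun u u' hu =>
    hwg.trans (meso_far N hN L g hL t (hS _ (hmem u)).1 (hS _ (hmem u')).1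
      (hS _ (hmem u)).2.2 (hS _ (hmem u')).2.2 hu)
  have hpos : ∀ u v, ‖pos (c u v) -
      (omul (u0 (μ u)) (u0 (μ v)) + (A (μ u) (μ v) u + B (μ u) (μ v) v))‖ ≤ 70 * η ^ 2 := fun u v => by
    have := (a3 (μ u) (μ v) _ (hsum u v)).2
    rw [isoL_apply, map_add, omul_e0, qv_add, map_add] at this
    exact this.trans (by linarith)
  have hinj : ∀ u u' v v', μ u = μ u' → μ v = μ v' → c u v = c u' v' →
      A (μ u) (μ v) u + B (μ u) (μ v) v = A (μ u) (μ v) u' + B (μ u) (μ v) v' := by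
    intro u u' v v' e1 e2 e3
    have e4 : ι (μ u) (μ v) (σ1 (μ u) (μ v) u.1 + σ2 (μ u) (μ v) v.1) =
        ι (μ u') (μ v') (σ1 (μ u') (μ v') u'.1 + σ2 (μ u') (μ v') v'.1) := congrArg Subtype.val e3
    have e5 := hsum u' v'
    rw [← e1, ← e2] at e4 e5
    have e6 := i3 _ _ (hsum u v) e5 e4
    simp only [A, B, ← map_add, ← qv_add, e6]
  have hsepA : ∀ Q u u', μ u = μ u' → u ≠ u' → δ ≤ ‖A (μ u) Q u - A (μ u) Q u'‖ := by
    intro Q u u' e1 e2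
    simp only [A]
    rw [← map_sub, omul_norm, ha0, one_mul]
    refine qv_sep δ hδ.le _ _ fun e => e2 (Subtype.ext (i1 _ _ (hSP u) ?_ e))
    rw [e1]; exact hSP u'
  have hsepB : ∀ P v v', μ v = μ v' → v ≠ v' → δ ≤ ‖B P (μ v) v - B P (μ v) v'‖ := by
    intro P u u' e1 e2
    simp only [B]
    rw [← map_sub, omul_norm, ha0, one_mul]
    refine qv_sep δ hδ.le _ _ fun e => e2 (Subtype.ext (i2 _ _ (hSP u) ?_ e))
    rw [e1]; exact hSP u'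
  have hη2 : η ^ 2 ≤ 70 * η ^ 2 := by nlinarith [sq_nonneg η]
  obtain ⟨φ, p1, p2⟩ := core omul omul_norm omul_left x x pos c μ μ u0 u0 A B ε (70 * η ^ 2) η w γ
    hx hx hu0 hu0 hxe (fun P => hxe _) hsx hsx hdx hdx (fun u Q => a1 _ Q u.1 (hSP u))
    (fun P v => a2 P _ v.1 (hSP v)) hpos hinj hε hε1 (by positivity) hκη (by linarith) hη2 hw1 hw2
  obtain ⟨ψ, p3, p4⟩ := core omul.flip flip_norm (fun u z => omul_right u z) x x pos
    (fun v u => c u v) μ μ u0 u0 (fun Q P v => B P Q v) (fun Q P u => A P Q u) ε (70 * η ^ 2) η w γ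
    hx hx hu0 hu0 hxe (fun P => hxe _) hsx hsx hdx hdx (fun v P => a2 P _ v.1 (hSP v))
    (fun Q u => a1 _ Q u.1 (hSP u)) (fun v u => by rw [add_comm (B _ _ _)]; exact hpos u v)
    (fun v v' u u' e1 e2 e3 => by
      rw [add_comm (B _ _ v), add_comm (B _ _ v')]; exact hinj u u' v v' e2 e1 e3)
    hε hε1 (by positivity) hκη (by linarith) hη2 hw1 hw2
  refine ⟨c, φ, fun u v => ψ v u, fun u v => -⟪A (μ u) (μ v) u, B (μ u) (μ v) v⟫, p1,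
    fun u v => p3 v u, fun u v => ?_, fun u u' u'' v v' e1 e2 => ?_,
    fun v v' v'' u u' e1 e2 => ?_⟩
  · rw [abs_neg]
    refine (abs_real_inner_le_norm _ _).trans ?_
    simp only [A, B]
    rw [omul_norm, omul_norm _ (qv _ _), ha0, one_mul, one_mul]
    calc _ ≤ (2 * η) * (2 * η) := mul_le_mul (b1 u v) (b2 u v) (norm_nonneg _) (by positivity)
      _ ≤ 10 := by nlinarith
  · refine (p2 u u' u'' v v' e1 e2).imp_left ?_
    rintro ⟨m1, m2, m3, m4⟩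
    have f1 := hinj u u'' v v' m2 m3 e1
    have f2 := hinj u u' v' v m1 m3.symm e2
    rw [← m3] at f2
    have f3 := fine_pot _ _ _ _ _ f1 f2
    simp only [← m1, ← m2, ← m3]
    rw [f3]
    exact ⟨m4, by positivity, fun hv => pow_le_pow_left₀ hδ.le (hsepB _ v v' m3 hv) 2⟩
  · refine (p4 v v' v'' u u' e1 e2).imp_left ?_
    rintro ⟨m1, m2, m3, m4⟩
    have f1 := hinj u u' v v'' m3 m2 e1
    have f2 := hinj u' u v v' m3.symm m1 e2
    rw [← m3] at f2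
    rw [add_comm, add_comm (A _ _ u')] at f1
    rw [add_comm, add_comm (A _ _ u)] at f2
    have f3 := fine_pot _ _ _ _ _ f1 f2
    simp only [← m1, ← m2, ← m3]
    simp only [real_inner_comm (A _ _ _)] at f3
    rw [f3]
    exact ⟨m4, by positivity, fun hu => pow_le_pow_left₀ hδ.le (hsepA _ u u' m3 hu) 2⟩

end Pool.Agent.Lib.MP_92084f_co
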