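import Mathlib

set_option autoImplicit false

open scoped RealInnerProductSpace

namespace Pool.Agent.Lib.MP_92084f_co

/-- Euclidean eight-space. -/
abbrev E := EuclideanSpace ℝ (Fin 8)

/-- The octonion product in coordinates. -/
noncomputable def omulFun (x y : E) : E := WithLp.toLp 2 ![
    x 0 * y 0 - x 1 * y 1 - x 2 * y 2 - x 3 * y 3 - x 4 * y 4 - x 5 * y 5 - x 6 * y 6 - x 7 * y 7,
    x 0 * y 1 + x 1 * y 0 + x 2 * y 3 - x 3 * y 2 + x 4 * y 5 - x 5 * y 4 - x 6 * y 7 + x 7 * y 6,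
    x 0 * y 2 - x 1 * y 3 + x 2 * y 0 + x 3 * y 1 + x 4 * y 6 + x 5 * y 7 - x 6 * y 4 - x 7 * y 5,
    x 0 * y 3 + x 1 * y 2 - x 2 * y 1 + x 3 * y 0 + x 4 * y 7 - x 5 * y 6 + x 6 * y 5 - x 7 * y 4,
    x 0 * y 4 - x 1 * y 5 - x 2 * y 6 - x 3 * y 7 + x 4 * y 0 + x 5 * y 1 + x 6 * y 2 + x 7 * y 3,
    x 0 * y 5 + x 1 * y 4 - x 2 * y 7 + x 3 * y 6 - x 4 * y 1 + x 5 * y 0 - x 6 * y 3 + x 7 * y 2,
    x 0 * y 6 + x 1 * y 7 + x 2 * y 4 - x 3 * y 5 - x 4 * y 2 + x 5 * y 3 + x 6 * y 0 - x 7 * y 1,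
    x 0 * y 7 - x 1 * y 6 + x 2 * y 5 + x 3 * y 4 - x 4 * y 3 - x 5 * y 2 + x 6 * y 1 + x 7 * y 0]

theorem inner_E (x y : E) : ⟪x, y⟫ = ∑ i, x i * y i := by
  simp [PiLp.inner_apply, mul_comm]

theorem normsq_E (x : E) : ‖x‖ ^ 2 = ∑ i, x i * x i := by
  rw [← real_inner_self_eq_norm_sq, inner_E]

/-- The octonion product as a bilinear map. -/
noncomputable def omul : E →ₗ[ℝ] E →ₗ[ℝ] E :=
  LinearMap.mk₂ ℝ omulFun
    (fun a b c => by ext i; fin_cases i <;> simp [omulFun] <;> ring)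
    (fun r a c => by ext i; fin_cases i <;> simp [omulFun] <;> ring)
    (fun a b c => by ext i; fin_cases i <;> simp [omulFun] <;> ring)
    (fun r a c => by ext i; fin_cases i <;> simp [omulFun] <;> ring)

theorem omul_apply (x y : E) : omul x y = omulFun x y := rfl

theorem omul_normsq (x y : E) : ‖omul x y‖ ^ 2 = ‖x‖ ^ 2 * ‖y‖ ^ 2 := by
  rw [normsq_E, normsq_E, normsq_E, omul_apply]
  simp [Fin.sum_univ_succ, omulFun]
  ring

theorem omul_norm (x y : E) : ‖omul x y‖ = ‖x‖ * ‖y‖ := by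
  have h := omul_normsq x y
  rw [← mul_pow] at h
  exact (pow_left_inj₀ (norm_nonneg _) (by positivity) two_ne_zero).1 h

theorem omul_left (u x : E) : ⟪omul u x, x⟫ = u 0 * ‖x‖ ^ 2 := by
  rw [normsq_E, inner_E, omul_apply]
  simp [Fin.sum_univ_succ, omulFun]
  ring

theorem omul_right (u x : E) : ⟪omul x u, x⟫ = u 0 * ‖x‖ ^ 2 := by
  rw [normsq_E, inner_E, omul_apply]
  simp [Fin.sum_univ_succ, omulFun]
  ring

/-- The unit vector along the first axis. -/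
noncomputable def e0 : E := EuclideanSpace.single 0 1

theorem omul_e0 (x : E) : omul x e0 = x := by
  ext i
  fin_cases i <;> simp [omul_apply, omulFun, e0]

theorem norm_e0 : ‖e0‖ = 1 := by simp [e0]

/-- Left multiplication by a unit vector for a norm-multiplicative bilinear map. -/
noncomputable def isoL (m : E →ₗ[ℝ] E →ₗ[ℝ] E) (hm : ∀ x y, ‖m x y‖ = ‖x‖ * ‖y‖) (a : E)
    (ha : ‖a‖ = 1) : E ≃ₗᵢ[ℝ] E :=
  LinearIsometry.toLinearIsometryEquiv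
    { toLinearMap := m a, norm_map' := fun x => by simp [hm, ha] } rfl

theorem isoL_apply (m : E →ₗ[ℝ] E →ₗ[ℝ] E) (hm : ∀ x y, ‖m x y‖ = ‖x‖ * ‖y‖) (a : E)
    (ha : ‖a‖ = 1) (x : E) : isoL m hm a ha x = m a x := rfl

end Pool.Agent.Lib.MP_92084f_co
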