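import Pool.Agent.Lib.MP_92084f_co.Oct

set_option autoImplicit false

open MeasureTheory
open scoped ENNReal RealInnerProductSpace

namespace Pool.Agent.Lib.MP_92084f_co

theorem vol_transfer (s : Set (Fin 8 → ℝ)) (hs : MeasurableSet s) :
    volume {z : E | WithLp.ofLp z ∈ s} = volume s :=
  (PiLp.volume_preserving_ofLp (Fin 8)).measure_preimage hs.nullMeasurableSet

theorem vol_box (a b : Fin 8 → ℝ) :
    volume {z : E | ∀ j, a j ≤ z j ∧ z j < b j} = ∏ j, ENNReal.ofReal (b j - a j) := by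
  rw [← Real.volume_pi_Ico, ← vol_transfer _ (MeasurableSet.univ_pi fun _ => measurableSet_Ico)]
  congr 1
  ext z
  simp

/-- The index of the pyramid over the lattice `δ ℤ^7` that contains a point. -/
noncomputable def pyrP (δ : ℝ) (z : Fin 8 → ℝ) : Fin 7 → ℤ := fun j => ⌊z j.succ / (δ * z 0)⌋

/-- The truncated pyramid with index `k`. -/
def pyrSet (δ h : ℝ) (k : Fin 7 → ℤ) : Set (Fin 8 → ℝ) := {z | pyrP δ z = k ∧ 0 < z 0 ∧ z 0 ≤ h}

theorem measurable_pyrP (δ : ℝ) : Measurable (pyrP δ) := by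
  refine measurable_pi_lambda _ fun j => ?_
  exact Measurable.floor (by fun_prop)

theorem measurableSet_pyrSet (δ h : ℝ) (k : Fin 7 → ℤ) : MeasurableSet (pyrSet δ h k) := by
  have h1 : MeasurableSet (pyrP δ ⁻¹' {k}) := measurable_pyrP δ (measurableSet_singleton k)
  have h2 : MeasurableSet {z : Fin 8 → ℝ | 0 < z 0} := measurableSet_lt (by fun_prop) (by fun_prop)
  have h3 : MeasurableSet {z : Fin 8 → ℝ | z 0 ≤ h} := measurableSet_le (by fun_prop) (by fun_prop)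
  exact h1.inter (h2.inter h3)

/-- The shear that carries every pyramid to the standard one. -/
noncomputable def shear (δ h : ℝ) (k : Fin 7 → ℤ) : Matrix (Fin 8) (Fin 8) ℝ :=
  Matrix.of fun i j => Fin.cases (if j = 0 then h⁻¹ else 0)
    (fun i' => if j = 0 then -(k i' : ℝ) * h⁻¹ else if j = i'.succ then (h * δ)⁻¹ else 0) i

theorem shear_det (δ h : ℝ) (k : Fin 7 → ℤ) : (shear δ h k).det = h⁻¹ * ((h * δ)⁻¹) ^ 7 := by
  rw [Matrix.det_of_isLowerTriangular]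
  · rw [Fin.prod_univ_succ]
    simp [shear, Fin.succ_ne_zero]
  · intro i j hij
    have hij' : i < j := hij
    refine Fin.cases (fun hij' => ?_) (fun i' hij' => ?_) i hij'
    · simp [shear, hij'.ne']
    · have h0 : j ≠ 0 := (lt_of_le_of_lt (Fin.zero_le _) hij').ne'
      simp [shear, h0, hij'.ne']

theorem shear_zero (δ h : ℝ) (k : Fin 7 → ℤ) (z : Fin 8 → ℝ) :
    Matrix.toLin' (shear δ h k) z 0 = h⁻¹ * z 0 := by
  simp [shear, Matrix.mulVec, dotProduct]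

theorem shear_succ (δ h : ℝ) (k : Fin 7 → ℤ) (z : Fin 8 → ℝ) (i : Fin 7) :
    Matrix.toLin' (shear δ h k) z i.succ = -(k i : ℝ) * h⁻¹ * z 0 + (h * δ)⁻¹ * z i.succ := by
  simp only [Matrix.toLin'_apply, Matrix.mulVec, dotProduct, shear, Matrix.of_apply,
    Fin.cases_succ]
  rw [Fin.sum_univ_succ]
  simp [Fin.succ_ne_zero]

/-- The volume of the standard pyramid. -/
noncomputable def v0 : ℝ≥0∞ := volume (pyrSet 1 1 0)

theorem vol_pyrSet (δ h : ℝ) (hδ : 0 < δ) (hh : 0 < h) (k : Fin 7 → ℤ) :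
    volume (pyrSet δ h k) = ENNReal.ofReal (h ^ 8 * δ ^ 7) * v0 := by
  have e : pyrSet δ h k = Matrix.toLin' (shear δ h k) ⁻¹' pyrSet 1 1 0 := by
    ext z
    simp only [pyrSet, Set.mem_ofPred_eq, Set.mem_preimage, shear_zero]
    have i1 : 0 < h⁻¹ * z 0 ↔ 0 < z 0 := mul_pos_iff_of_pos_left (inv_pos.2 hh)
    have i2 : h⁻¹ * z 0 ≤ 1 ↔ z 0 ≤ h := by rw [inv_mul_le_iff₀ hh, mul_one]
    rw [i1, i2]
    refine and_congr_left fun hz => ?_
    have hz0 := hz.1.ne'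
    rw [funext_iff, funext_iff]
    refine forall_congr' fun j => ?_
    simp only [pyrP, shear_zero, shear_succ, Pi.zero_apply]
    have : (-(k j : ℝ) * h⁻¹ * z 0 + (h * δ)⁻¹ * z j.succ) / (1 * (h⁻¹ * z 0)) =
        z j.succ / (δ * z 0) - k j := by
      field_simp
      ring
    rw [this, Int.floor_sub_intCast, sub_eq_zero]
  have hd : LinearMap.det (Matrix.toLin' (shear δ h k)) = (h ^ 8 * δ ^ 7)⁻¹ := by
    rw [LinearMap.det_toLin', shear_det]
    field_simp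
  rw [e, Measure.addHaar_preimage_linearMap volume (by rw [hd]; positivity), hd, inv_inv,
    abs_of_pos (by positivity)]
  rfl

theorem v0_le : v0 ≤ 1 := by
  have h : pyrSet 1 1 0 ⊆ Set.Icc (0 : Fin 8 → ℝ) 1 := by
    rintro z ⟨h1, h2, h3⟩
    have h4 : ∀ j : Fin 7, 0 ≤ z j.succ ∧ z j.succ ≤ 1 := fun j => by
      have := congrFun h1 j
      simp only [pyrP, one_mul, Pi.zero_apply, Int.floor_eq_zero_iff, Set.mem_Ico] at this
      rw [le_div_iff₀ h2, div_lt_one h2] at this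
      exact ⟨by linarith [this.1], by linarith [this.2]⟩
    exact ⟨fun j => Fin.cases h2.le (fun j => (h4 j).1) j, fun j => Fin.cases h3 (fun j => (h4 j).2) j⟩
  refine (measure_mono h).trans ?_
  simp [Real.volume_Icc_pi]

theorem v0_ne_top : v0 ≠ ⊤ := ne_top_of_le_ne_top ENNReal.one_ne_top v0_le

theorem v0_ne_zero : v0 ≠ 0 := by
  have h : Set.Icc (Fin.cons (1 / 2) fun _ => 0 : Fin 8 → ℝ) (Fin.cons 1 fun _ => 1 / 4)
      ⊆ pyrSet 1 1 0 := by
    rintro z ⟨h1, h2⟩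
    have a0 : 1 / 2 ≤ z 0 := h1 0
    have b0 : z 0 ≤ 1 := h2 0
    refine ⟨funext fun j => ?_, by linarith, b0⟩
    have a1 : 0 ≤ z j.succ := h1 j.succ
    have b1 : z j.succ ≤ 1 / 4 := h2 j.succ
    have hz : 0 < z 0 := by linarith
    simp only [pyrP, one_mul, Pi.zero_apply, Int.floor_eq_zero_iff, Set.mem_Ico]
    rw [le_div_iff₀ hz, div_lt_one hz]
    exact ⟨by linarith, by linarith⟩
  refine ne_of_gt (lt_of_lt_of_le ?_ (measure_mono h))
  rw [Real.volume_Icc_pi, pos_iff_ne_zero, Finset.prod_ne_zero_iff]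
  intro j _
  refine Fin.cases ?_ (fun j => ?_) j <;> simp <;> norm_num

/-- The pyramid index of a point of Euclidean space. -/
noncomputable def pyr (δ : ℝ) (z : E) : Fin 7 → ℤ := pyrP δ (WithLp.ofLp z)

/-- The slab `0 < z 0 ≤ h`. -/
def slab (h : ℝ) : Set E := {z | 0 < z 0 ∧ z 0 ≤ h}

theorem measurable_pyr (δ : ℝ) : Measurable (pyr δ) :=
  (measurable_pyrP δ).comp (PiLp.volume_preserving_ofLp (Fin 8)).measurable

theorem vol_pyr (δ h : ℝ) (hδ : 0 < δ) (hh : 0 < h) (k : Fin 7 → ℤ) :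
    volume (pyr δ ⁻¹' {k} ∩ slab h) = ENNReal.ofReal (h ^ 8 * δ ^ 7) * v0 := by
  rw [← vol_pyrSet δ h hδ hh k, ← vol_transfer _ (measurableSet_pyrSet δ h k)]
  rfl

/-- The lattice vector with index `k`. -/
noncomputable def qv (δ : ℝ) (k : Fin 7 → ℤ) : E :=
  WithLp.toLp 2 (Fin.cons 0 fun j => δ * (k j : ℝ))

theorem qv_zero (δ : ℝ) (k : Fin 7 → ℤ) : qv δ k 0 = 0 := rfl

theorem qv_succ (δ : ℝ) (k : Fin 7 → ℤ) (j : Fin 7) : qv δ k j.succ = δ * (k j : ℝ) := rfl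

theorem qv_add (δ : ℝ) (k l : Fin 7 → ℤ) : qv δ (k + l) = qv δ k + qv δ l := by
  ext j
  refine Fin.cases ?_ (fun j => ?_) j
  · simp [qv_zero]
  · simp [qv_succ, mul_add]

theorem abs_le_norm_E (z : E) (j : Fin 8) : |z j| ≤ ‖z‖ := by
  simpa using PiLp.norm_apply_le z j

theorem norm_le_of_coord (z : E) (r : ℝ) (hr : 0 ≤ r) (h : ∀ j, |z j| ≤ r) : ‖z‖ ≤ 3 * r := by
  have h1 : ‖z‖ ^ 2 ≤ (3 * r) ^ 2 := by
    rw [normsq_E]
    calc ∑ i, z i * z i ≤ ∑ _i : Fin 8, r ^ 2 := Finset.sum_le_sum fun i _ => by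
          have := h i
          rw [← abs_mul_abs_self]
          nlinarith [abs_nonneg (z i)]
      _ ≤ (3 * r) ^ 2 := by simp; nlinarith
  exact (pow_le_pow_iff_left₀ (norm_nonneg _) (by positivity) two_ne_zero).1 h1

theorem qv_sep (δ : ℝ) (hδ : 0 ≤ δ) (k l : Fin 7 → ℤ) (h : k ≠ l) : δ ≤ ‖qv δ k - qv δ l‖ := by
  obtain ⟨j, hj⟩ := Function.ne_iff.1 h
  refine le_trans ?_ (abs_le_norm_E _ j.succ)
  have h1 : (1 : ℝ) ≤ |(k j : ℝ) - l j| := by
    have : (1 : ℤ) ≤ |k j - l j| := Int.one_le_abs (sub_ne_zero.2 hj)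
    exact_mod_cast this
  simp only [PiLp.sub_apply, qv_succ, ← mul_sub, abs_mul, abs_of_nonneg hδ]
  nlinarith

theorem pyr_close (δ : ℝ) (hδ : 0 < δ) (z : E) (hz : 0 < z 0) :
    ‖(z 0)⁻¹ • z - (e0 + qv δ (pyr δ z))‖ ≤ 3 * δ := by
  refine norm_le_of_coord _ δ hδ.le fun j => ?_
  refine Fin.cases ?_ (fun j => ?_) j
  · simp [e0, qv_zero, hz.ne', hδ.le]
  · have h1 := Int.floor_le (z j.succ / (δ * z 0))
    have h2 := Int.lt_floor_add_one (z j.succ / (δ * z 0))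
    have e : (z 0)⁻¹ * z j.succ = δ * (z j.succ / (δ * z 0)) := by field_simp
    simp only [PiLp.sub_apply, PiLp.add_apply, PiLp.smul_apply, smul_eq_mul, qv_succ, pyr, pyrP, e]
    have : e0 j.succ = 0 := by simp [e0]
    rw [this, abs_le]
    constructor <;> nlinarith

end Pool.Agent.Lib.MP_92084f_co
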