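import Pool.Agent.Lib.MP_92084f_co.GeoBlock

set_option autoImplicit false

namespace Pool.Agent.Lib.MP_92084f_co

/-- A star edge colouring of the complete bipartite graph with both sides indexed by `α`. -/
def Bip {α κ : Type*} (c : α → α → κ) : Prop :=
  (∀ u u' u'' v v', v ≠ v' → c u v = c u'' v' → c u v' = c u' v → False) ∧
  (∀ v v' v'' u u', u ≠ u' → c u v = c u' v'' → c u' v = c u v' → False)

/-- The complete bipartite graph with sides of size `n` has a star edge colouring with `k`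
colours. -/
def BipN (n k : ℕ) : Prop := ∃ c : Fin n → Fin n → Fin k, Bip c

theorem BipN.of_types {α κ : Type*} [Fintype α] [Fintype κ] (c : α → α → κ) (hc : Bip c) (n k : ℕ)
    (hn : n ≤ Fintype.card α) (hk : Fintype.card κ ≤ k) : BipN n k := by
  obtain ⟨e⟩ := Function.Embedding.nonempty_of_card_le (α := Fin n) (β := α) (by simpa using hn)
  obtain ⟨f⟩ := Function.Embedding.nonempty_of_card_le (α := κ) (β := Fin k) (by simpa using hk)
  refine ⟨fun u v => f (c (e u) (e v)), fun u u' u'' v v' h h1 h2 => ?_,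
    fun v v' v'' u u' h h1 h2 => ?_⟩
  · exact hc.1 _ _ _ _ _ (e.injective.ne h) (f.injective h1) (f.injective h2)
  · exact hc.2 _ _ _ _ _ (e.injective.ne h) (f.injective h1) (f.injective h2)

theorem sub_lt_of_floor_eq (a b q : ℝ) (hq : 0 < q) (hb : 0 ≤ b) (h : ⌊a / q⌋₊ = ⌊b / q⌋₊) :
    a - b < q := by
  have h1 := Nat.lt_floor_add_one (a / q)
  have h2 := Nat.floor_le (div_nonneg hb hq.le)
  rw [h, div_lt_iff₀ hq] at h1
  rw [le_div_iff₀ hq] at h2
  linarith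

theorem sum_window (m : ℕ) (f : Fin m → ℝ) (h : ∀ i, |f i| ≤ 10) :
    0 ≤ ∑ i, f i + 10 * m ∧ ∑ i, f i + 10 * m ≤ 20 * m := by
  have h3 : |∑ i, f i| ≤ 10 * m := by
    refine (Finset.abs_sum_le_sum_abs _ _).trans ((Finset.sum_le_sum fun i _ => h i).trans ?_)
    simp [mul_comm]
  rw [abs_le] at h3
  constructor <;> linarith [h3.1, h3.2]

/-- The bin of width `q` of a sum of `m` bounded numbers. -/
noncomputable def bin (m R : ℕ) (q : ℝ) (hq : 0 < q) (hR : 20 * m / q < R) (f : Fin m → ℝ)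
    (h : ∀ i, |f i| ≤ 10) : Fin R :=
  ⟨⌊(∑ i, f i + 10 * m) / q⌋₊, (Nat.floor_lt (div_nonneg (sum_window m f h).1 hq.le)).2
    ((div_le_div_of_nonneg_right (sum_window m f h).2 hq.le).trans_lt hR)⟩

theorem bin_contra (m R : ℕ) (γ : ℝ) (hq : 0 < γ / 2) (hR : 20 * m / (γ / 2) < R)
    (f1 f2 f3 f4 : Fin m → ℝ) (h1 : ∀ i, |f1 i| ≤ 10) (h2 : ∀ i, |f2 i| ≤ 10)
    (h3 : ∀ i, |f3 i| ≤ 10) (h4 : ∀ i, |f4 i| ≤ 10)
    (e1 : bin m R _ hq hR f2 h2 = bin m R _ hq hR f1 h1)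
    (e2 : bin m R _ hq hR f4 h4 = bin m R _ hq hR f3 h3)
    (p : ∀ i, 0 ≤ f1 i - f2 i + f3 i - f4 i) (i0 : Fin m)
    (p0 : γ ≤ f1 i0 - f2 i0 + f3 i0 - f4 i0) : False := by
  have a1 := sub_lt_of_floor_eq _ _ _ hq (sum_window m f2 h2).1 (congrArg Fin.val e1).symm
  have a2 := sub_lt_of_floor_eq _ _ _ hq (sum_window m f4 h4).1 (congrArg Fin.val e2).symm
  have a4 := p0.trans (Finset.single_le_sum (fun i _ => p i) (Finset.mem_univ i0))
  simp only [Finset.sum_sub_distrib, Finset.sum_add_distrib] at a4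
  linarith

theorem tensor {U K : Type*} [Fintype U] [Fintype K] (c : U → U → K) (γ γ' : ℝ)
    (hP : Pot c γ γ') (hγ : 0 < γ) (hγ' : 0 < γ') (m n k R R' : ℕ)
    (hn : n ≤ Fintype.card U ^ m) (hR : 20 * m / (γ / 2) < R) (hR' : 20 * m / (γ' / 2) < R')
    (hk : Fintype.card K ^ m * (R * (R * R')) ≤ k) : BipN n k := by
  classical
  obtain ⟨φ, ψ, χ, hφ, hψ, hχ, hU, hV⟩ := hP
  have hq : 0 < γ / 2 := by positivity
  have hq' : 0 < γ' / 2 := by positivity
  let C : (Fin m → U) → (Fin m → U) → (Fin m → K) × Fin R × Fin R × Fin R' := fun u v =>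
    (fun i => c (u i) (v i), bin m R _ hq hR (fun i => φ (u i) (v i)) fun _ => hφ _ _,
      bin m R _ hq hR (fun i => ψ (u i) (v i)) fun _ => hψ _ _,
      bin m R' _ hq' hR' (fun i => χ (u i) (v i)) fun _ => hχ _ _)
  refine BipN.of_types C ⟨fun u u' u'' v v' h h1 h2 => ?_, fun v v' v'' u u' h h1 h2 => ?_⟩ n k
    (by simpa using hn) (by simpa using hk)
  · simp only [C, Prod.mk.injEq, funext_iff] at h1 h2
    have a := fun i => hU _ _ _ _ _ (h1.1 i) (h2.1 i)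
    by_cases hb : ∃ i, γ ≤ φ (u'' i) (v' i) - φ (u i) (v i) + φ (u' i) (v i) - φ (u i) (v' i)
    · obtain ⟨i0, hi0⟩ := hb
      exact bin_contra m R γ hq hR _ _ _ _ _ _ _ _ h1.2.1 h2.2.1
        (fun i => (a i).elim (fun e => e.1) fun e => hγ.le.trans e) i0 hi0
    · obtain ⟨i0, hi0⟩ := Function.ne_iff.1 h
      have a' := fun i => (a i).resolve_right fun e => hb ⟨i, e⟩
      exact bin_contra m R' γ' hq' hR' _ _ _ _ _ _ _ _ h1.2.2.2 h2.2.2.2
        (fun i => (a' i).2.1) i0 ((a' i0).2.2 hi0)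
  · simp only [C, Prod.mk.injEq, funext_iff] at h1 h2
    have a := fun i => hV _ _ _ _ _ (h1.1 i) (h2.1 i)
    by_cases hb : ∃ i, γ ≤ ψ (u' i) (v'' i) - ψ (u i) (v i) + ψ (u i) (v' i) - ψ (u' i) (v i)
    · obtain ⟨i0, hi0⟩ := hb
      exact bin_contra m R γ hq hR _ _ _ _ _ _ _ _ h1.2.2.1 h2.2.2.1
        (fun i => (a i).elim (fun e => e.1) fun e => hγ.le.trans e) i0 hi0
    · obtain ⟨i0, hi0⟩ := Function.ne_iff.1 h
      have a' := fun i => (a i).resolve_right fun e => hb ⟨i, e⟩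
      exact bin_contra m R' γ' hq' hR' _ _ _ _ _ _ _ _ h1.2.2.2 h2.2.2.2
        (fun i => (a' i).2.1) i0 ((a' i0).2.2 hi0)

end Pool.Agent.Lib.MP_92084f_co
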